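import Mathlib

open MeasureTheory Set Filter Topology intervalIntegral
open scoped Interval ENNReal FourierTransform SchwartzMap

namespace Pool.Agent.Results.MP_0e2b0d_an.KdVBlowup

/-- the real constants `a_ij`, `b_ij` of the boundary operators -/
structure Coeffs where
  a10 : ℝ
  a11 : ℝ
  a20 : ℝ
  a21 : ℝ
  a30 : ℝ
  b10 : ℝ
  b20 : ℝ
  b30 : ℝ

/-- the `j`-th derivative of `v` on `[0,L]` at `x` (one-sided at the end points) -/
noncomputable def dx (L : ℝ) (j : ℕ) (v : ℝ → ℝ) (x : ℝ) : ℝ :=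
  iteratedDerivWithin j v (Icc 0 L) x

/-- the boundary operator `𝓑_k = 𝓑_{k,0} + 𝓑_{k,1}`, `k = 1,2,3,4` -/
noncomputable def bdry (k : ℕ) (c : Coeffs) (L : ℝ) (v : ℝ → ℝ) : Fin 3 → ℝ :=
  match k with
  | 1 => ![v 0, v L, dx L 1 v L]
  | 2 => ![v 0,
           dx L 1 v L + c.b30 * v L,
           dx L 2 v L + (c.a21 * dx L 1 v 0 + c.b20 * v L)]
  | 3 => ![dx L 2 v 0 + (c.a10 * v 0 + c.a11 * dx L 1 v 0),
           v L,
           dx L 1 v L + c.a30 * v 0]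
  | _ => ![dx L 2 v 0 + (c.a10 * v 0 + c.a11 * dx L 1 v 0 + c.b10 * v L),
           dx L 1 v L + (c.a30 * v 0 + c.b30 * v L),
           dx L 2 v L + (c.a20 * v 0 + c.a21 * dx L 1 v 0 + c.b20 * v L)]

/-- `u` (written `u t x`) is a classical solution on `[0,T) × [0,L]` of the problem `(∗_k)` with
initial value `φ` and boundary data `h`: the time derivative and the first three space derivatives
exist and are jointly continuous up to the boundary, and the equation, the initial condition and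
the boundary conditions hold. -/
structure IsSolution (k : ℕ) (c : Coeffs) (L T : ℝ) (φ : ℝ → ℝ) (h : Fin 3 → ℝ → ℝ)
    (u : ℝ → ℝ → ℝ) : Prop where
  diff_t : ∀ x ∈ Icc 0 L, DifferentiableOn ℝ (fun t => u t x) (Ico 0 T)
  diff_x : ∀ t ∈ Ico 0 T, ContDiffOn ℝ 3 (u t) (Icc 0 L)
  cont_t : ContinuousOn (fun z : ℝ × ℝ => derivWithin (fun t => u t z.2) (Ico 0 T) z.1)
    (Ico 0 T ×ˢ Icc 0 L)
  cont_x : ∀ j ≤ 3, ContinuousOn (fun z : ℝ × ℝ => dx L j (u z.1) z.2) (Ico 0 T ×ˢ Icc 0 L)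
  pde : ∀ t ∈ Ico 0 T, ∀ x ∈ Icc 0 L,
    derivWithin (fun τ => u τ x) (Ico 0 T) t + dx L 1 (u t) x + dx L 3 (u t) x
      + u t x * dx L 1 (u t) x = 0
  init : ∀ x ∈ Icc 0 L, u 0 x = φ x
  bc : ∀ t ∈ Ico 0 T, bdry k c L (u t) = fun j => h j t

/-- the compatibility conditions of every order at `t = 0`: the successive time derivatives
`ψ n` of a smooth solution at `t = 0`, computed from `φ` through the equation, satisfy
`𝓑_k (ψ n) = h⁽ⁿ⁾(0)`. -/
def Compatible (k : ℕ) (c : Coeffs) (L : ℝ) (φ : ℝ → ℝ) (h : Fin 3 → ℝ → ℝ) : Prop :=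
  ∃ ψ : ℕ → ℝ → ℝ, (∀ n, ContDiffOn ℝ ((⊤ : ℕ∞) : WithTop ℕ∞) (ψ n) (Icc 0 L)) ∧
    (∀ x ∈ Icc 0 L, ψ 0 x = φ x) ∧
    (∀ n, ∀ x ∈ Icc 0 L, ψ (n + 1) x = -(dx L 1 (ψ n) x + dx L 3 (ψ n) x
      + ∑ j ∈ Finset.range (n + 1), (n.choose j : ℝ) * ψ j x * dx L 1 (ψ (n - j)) x)) ∧
    ∀ n, bdry k c L (ψ n) = fun j => iteratedDeriv n (h j) 0

/-- the squared `H^s(ℝ)` norm of an `L²` function on the line: `∫ (1+ξ²)^s |F̂(ξ)|² dξ`. -/
noncomputable def lineSobolevSq (s : ℝ) (F : Lp ℂ 2 (volume : Measure ℝ)) : ℝ≥0∞ :=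
  ∫⁻ ξ : ℝ, ENNReal.ofReal ((1 + ξ ^ 2) ^ s) * ‖(𝓕 F : Lp ℂ 2 (volume : Measure ℝ)) ξ‖ₑ ^ 2

/-- the norm of `H^s(0,L)`, `s ≥ 0`: the infimum of the `H^s(ℝ)` norms of the extensions of `f`
from `(0,L)` to the line (infinite if there is no extension in `H^s(ℝ)`). -/
noncomputable def sobNorm (s L : ℝ) (f : ℝ → ℝ) : ℝ≥0∞ :=
  ⨅ (F : Lp ℂ 2 (volume : Measure ℝ)) (_ : ∀ᵐ x ∂(volume.restrict (Ioo 0 L)), F x = (f x : ℂ)),
    (lineSobolevSq s F) ^ (1 / 2 : ℝ)

/-- `u ∈ C([0,T'];H^s(0,L)) ∩ L²(0,T';H^{s+1}(0,L))` for all `0 ≤ T' < T`. -/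
def InClass (s L T : ℝ) (u : ℝ → ℝ → ℝ) : Prop :=
  ∀ T', 0 ≤ T' → T' < T →
    (∀ t ∈ Icc 0 T', sobNorm s L (u t) < ∞) ∧
    (∀ t₀ ∈ Icc 0 T',
      Tendsto (fun t => sobNorm s L (fun x => u t x - u t₀ x)) (𝓝[Icc 0 T'] t₀) (𝓝 0)) ∧
    ∫⁻ t in Icc 0 T', (sobNorm (s + 1) L (u t)) ^ 2 < ∞

/-- `u` lies in the solution class of regularity `s` on `[0,T)` and cannot be continued past `T`
in this class. -/
def BlowsUp (s L T : ℝ) (u : ℝ → ℝ → ℝ) : Prop :=
  InClass s L T u ∧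
    ∀ T₁, T < T₁ → ∀ v : ℝ → ℝ → ℝ, InClass s L T₁ v →
      ¬ ∀ t ∈ Ico 0 T, ∀ᵐ x ∂(volume.restrict (Ioo 0 L)), v t x = u t x




/-- differentiation under the integral sign for jointly continuous derivative -/
lemma hasDerivAt_param {F F' : ℝ → ℝ → ℝ} {a b L t₀ : ℝ} (hL : 0 ≤ L) (ht : t₀ ∈ Ioo a b)
    (hF : ContinuousOn (fun z : ℝ × ℝ => F z.1 z.2) (Ioo a b ×ˢ Icc 0 L))
    (hF' : ContinuousOn (fun z : ℝ × ℝ => F' z.1 z.2) (Ioo a b ×ˢ Icc 0 L))
    (hd : ∀ t ∈ Ioo a b, ∀ x ∈ Icc 0 L, HasDerivAt (fun t => F t x) (F' t x) t) :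
    HasDerivAt (fun t => ∫ x in (0:ℝ)..L, F t x) (∫ x in (0:ℝ)..L, F' t₀ x) t₀ := by
  obtain ⟨ε, hε, hball⟩ := Metric.isOpen_iff.1 isOpen_Ioo t₀ ht
  have hsub : Icc (t₀ - ε / 2) (t₀ + ε / 2) ⊆ Ioo a b := by
    intro y hy
    apply hball
    rw [Metric.mem_ball, Real.dist_eq, abs_lt]
    constructor <;> linarith [hy.1, hy.2]
  have hcomp : IsCompact (Icc (t₀ - ε / 2) (t₀ + ε / 2) ×ˢ Icc 0 L) :=
    isCompact_Icc.prod isCompact_Icc
  obtain ⟨M, hM⟩ := hcomp.exists_bound_of_continuousOn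
    (hF'.mono (prod_mono hsub (subset_refl _)))
  have hnhds : Icc (t₀ - ε / 2) (t₀ + ε / 2) ∈ 𝓝 t₀ := Icc_mem_nhds (by linarith) (by linarith)
  have hsec : ∀ t ∈ Ioo a b, ∀ {G : ℝ → ℝ → ℝ}, ContinuousOn (fun z : ℝ × ℝ => G z.1 z.2) (Ioo a b ×ˢ Icc 0 L) →
      ContinuousOn (G t) (Icc 0 L) := by
    intro t ht G hG
    exact hG.comp (f := fun x => (t, x)) (by fun_prop) (fun x hx => ⟨ht, hx⟩)
  have huI : Ι 0 L ⊆ Icc 0 L := by
    rw [uIoc_of_le hL]; exact Ioc_subset_Icc_self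
  refine (intervalIntegral.hasDerivAt_integral_of_dominated_loc_of_deriv_le (F := F) (F' := F')
    (bound := fun _ => M) hnhds ?_ ?_ ?_ ?_ ?_ ?_).2
  · filter_upwards [hnhds] with t ht'
    exact ((hsec t (hsub ht') hF).mono huI).aestronglyMeasurable measurableSet_uIoc
  · exact (hsec t₀ ht hF).intervalIntegrable_of_Icc hL
  · exact ((hsec t₀ ht hF').mono huI).aestronglyMeasurable measurableSet_uIoc
  · refine Eventually.of_forall fun x hx t ht' => ?_
    exact hM (t, x) ⟨ht', huI hx⟩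
  · exact intervalIntegrable_const
  · refine Eventually.of_forall fun x hx t ht' => ?_
    exact hd t (hsub ht') x (huI hx)



/-- continuity of a parametric integral on a compact rectangle -/
lemma continuousOn_param {F : ℝ → ℝ → ℝ} {a b L : ℝ} (hab : a ≤ b) (hL : 0 ≤ L)
    (hF : ContinuousOn (fun z : ℝ × ℝ => F z.1 z.2) (Icc a b ×ˢ Icc 0 L)) :
    ContinuousOn (fun t => ∫ x in (0:ℝ)..L, F t x) (Icc a b) := by
  let G : ℝ → ℝ → ℝ := fun t x => F (projIcc a b hab t) (projIcc 0 L hL x)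
  have hG : Continuous (Function.uncurry G) := by
    have h1 : Continuous (fun z : ℝ × ℝ => ((projIcc a b hab z.1 : ℝ), (projIcc 0 L hL z.2 : ℝ))) := by
      fun_prop
    exact hF.comp_continuous h1 (fun z => ⟨(projIcc a b hab z.1).2, (projIcc 0 L hL z.2).2⟩)
  have hc := continuous_parametric_intervalIntegral_of_continuous' (μ := volume) hG 0 L
  refine hc.continuousOn.congr ?_
  intro t ht
  apply intervalIntegral.integral_congr
  intro x hx
  rw [uIcc_of_le hL] at hx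
  simp only [G]
  rw [projIcc_of_mem hab ht, projIcc_of_mem hL hx]

/-- the data of a `C³` function on `[0,L]` -/
structure C3 (L : ℝ) (z p q r : ℝ → ℝ) : Prop where
  h1 : ∀ x ∈ Icc 0 L, HasDerivWithinAt z (p x) (Icc 0 L) x
  h2 : ∀ x ∈ Icc 0 L, HasDerivWithinAt p (q x) (Icc 0 L) x
  h3 : ∀ x ∈ Icc 0 L, HasDerivWithinAt q (r x) (Icc 0 L) x
  hr : ContinuousOn r (Icc 0 L)

namespace C3
variable {L : ℝ} {z p q r : ℝ → ℝ}

lemma cz (h : C3 L z p q r) : ContinuousOn z (Icc 0 L) := fun x hx => (h.h1 x hx).continuousWithinAt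
lemma cp (h : C3 L z p q r) : ContinuousOn p (Icc 0 L) := fun x hx => (h.h2 x hx).continuousWithinAt
lemma cq (h : C3 L z p q r) : ContinuousOn q (Icc 0 L) := fun x hx => (h.h3 x hx).continuousWithinAt
end C3

/-- fundamental theorem of calculus for one-sided derivatives on `[0,L]` -/
lemma ftc {L : ℝ} (hL : 0 ≤ L) {G g : ℝ → ℝ} (hG : ∀ x ∈ Icc 0 L, HasDerivWithinAt G (g x) (Icc 0 L) x)
    (hg : ContinuousOn g (Icc 0 L)) : ∫ x in (0:ℝ)..L, g x = G L - G 0 := by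
  apply integral_eq_sub_of_hasDerivAt_of_le hL (fun x hx => (hG x hx).continuousWithinAt)
  · intro x hx
    exact (hG x (Ioo_subset_Icc_self hx)).hasDerivAt (Icc_mem_nhds hx.1 hx.2)
  · exact hg.intervalIntegrable_of_Icc hL

lemma energy_identity {L : ℝ} (hL : 0 ≤ L) {z p q r : ℝ → ℝ} (h : C3 L z p q r) :
    ∫ x in (0:ℝ)..L, (-(2 * (1 + x) * z x * (r x + p x)) + 3 * p x ^ 2 - z x ^ 2) =
      -2 * (1 + L) * z L * q L + (1 + L) * p L ^ 2 + 2 * z L * p L - (1 + L) * z L ^ 2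
        + 2 * z 0 * q 0 - p 0 ^ 2 - 2 * z 0 * p 0 + z 0 ^ 2 := by
  have cz := h.cz
  have cp := h.cp
  have cq := h.cq
  have cr := h.hr
  have key := ftc hL (G := fun x => -(2 * (1 + x) * z x * q x - (1 + x) * p x ^ 2 - 2 * z x * p x
    + (1 + x) * z x ^ 2)) (g := fun x => (-(2 * (1 + x) * z x * (r x + p x)) + 3 * p x ^ 2 - z x ^ 2)) ?_ ?_
  · rw [key]; ring
  · intro x hx
    have hx1 : HasDerivWithinAt (fun x : ℝ => 1 + x) 1 (Icc 0 L) x := by
      simpa using (hasDerivWithinAt_id x (Icc 0 L)).const_add 1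
    have d := ((((hx1.const_mul 2).mul (h.h1 x hx)).mul (h.h3 x hx)).sub
      (hx1.mul ((h.h2 x hx).pow 2))).sub (((h.h1 x hx).const_mul 2).mul (h.h2 x hx))
    have d2 := (d.add (hx1.mul ((h.h1 x hx).pow 2))).neg
    refine (d2.congr_deriv ?_).congr (fun y hy => ?_) ?_
    · simp; ring
    · simp [Pi.mul_apply, Pi.sub_apply, Pi.add_apply]
    · simp [Pi.mul_apply, Pi.sub_apply, Pi.add_apply]
  · fun_prop


lemma young_aux {L ε x z p : ℝ} (hL : 0 < L) (hε : 0 < ε) (hx0 : -L ≤ x) (hxL : x ≤ L) :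
    2 * x * z * p ≤ L * (ε * p ^ 2 + z ^ 2 / ε) := by
  have h1 : 2 * x * z * p ≤ 2 * L * (|z| * |p|) := by
    have : 2 * x * z * p ≤ |2 * x * z * p| := le_abs_self _
    have h2 : |2 * x * z * p| = 2 * |x| * (|z| * |p|) := by
      rw [abs_mul, abs_mul, abs_mul]; simp; ring
    have h3 : |x| ≤ L := abs_le.2 ⟨hx0, hxL⟩
    calc 2 * x * z * p ≤ 2 * |x| * (|z| * |p|) := by rw [← h2]; exact this
      _ ≤ 2 * L * (|z| * |p|) := by gcongr
  have h4 : 2 * (|z| * |p|) ≤ ε * p ^ 2 + z ^ 2 / ε := by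
    have h5 : 0 ≤ (ε * |p| - |z|) ^ 2 / ε := by positivity
    have h6 : (ε * |p| - |z|) ^ 2 / ε = ε * p ^ 2 + z ^ 2 / ε - 2 * (|z| * |p|) := by
      field_simp
      rw [← sq_abs p, ← sq_abs z]; ring
    linarith
  calc 2 * x * z * p ≤ L * (2 * (|z| * |p|)) := by linarith
    _ ≤ L * (ε * p ^ 2 + z ^ 2 / ε) := by gcongr

/-- trace inequality at the right end -/
lemma trace_right {L : ℝ} (hL : 0 < L) {z p q r : ℝ → ℝ} (h : C3 L z p q r) {ε : ℝ} (hε : 0 < ε) :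
    z L ^ 2 ≤ ∫ x in (0:ℝ)..L, (ε * p x ^ 2 + (1 / L + 1 / ε) * z x ^ 2) := by
  have cz := h.cz
  have cp := h.cp
  have key := ftc hL.le (G := fun x => x * z x ^ 2) (g := fun x => z x ^ 2 + 2 * x * z x * p x) ?_ ?_
  · have h1 : ∫ x in (0:ℝ)..L, (z x ^ 2 + 2 * x * z x * p x) ≤
        ∫ x in (0:ℝ)..L, (L * (ε * p x ^ 2 + (1 / L + 1 / ε) * z x ^ 2)) := by
      apply intervalIntegral.integral_mono_on hL.le
      · apply ContinuousOn.intervalIntegrable_of_Icc hL.le; fun_prop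
      · apply ContinuousOn.intervalIntegrable_of_Icc hL.le; fun_prop
      · intro x hx
        have := young_aux (z := z x) (p := p x) hL hε (by linarith [hx.1]) hx.2
        have e : L * (ε * p x ^ 2 + (1 / L + 1 / ε) * z x ^ 2) = z x ^ 2 + L * (ε * p x ^ 2 + z x ^ 2 / ε) := by
          field_simp
          ring
        rw [e]; linarith
    rw [key, intervalIntegral.integral_const_mul] at h1
    simp only [zero_mul, sub_zero] at h1
    exact le_of_mul_le_mul_left h1 hL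
  · intro x hx
    have d := (hasDerivWithinAt_id x (Icc 0 L)).mul ((h.h1 x hx).pow 2)
    refine (d.congr_deriv ?_).congr (fun y hy => ?_) ?_
    · simp; ring
    · simp
    · simp
  · fun_prop

/-- trace inequality at the left end -/
lemma trace_left {L : ℝ} (hL : 0 < L) {z p q r : ℝ → ℝ} (h : C3 L z p q r) {ε : ℝ} (hε : 0 < ε) :
    z 0 ^ 2 ≤ ∫ x in (0:ℝ)..L, (ε * p x ^ 2 + (1 / L + 1 / ε) * z x ^ 2) := by
  have cz := h.cz
  have cp := h.cp
  have key := ftc hL.le (G := fun x => (x - L) * z x ^ 2)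
    (g := fun x => z x ^ 2 + 2 * (x - L) * z x * p x) ?_ ?_
  · have h1 : ∫ x in (0:ℝ)..L, (z x ^ 2 + 2 * (x - L) * z x * p x) ≤
        ∫ x in (0:ℝ)..L, (L * (ε * p x ^ 2 + (1 / L + 1 / ε) * z x ^ 2)) := by
      apply intervalIntegral.integral_mono_on hL.le
      · apply ContinuousOn.intervalIntegrable_of_Icc hL.le; fun_prop
      · apply ContinuousOn.intervalIntegrable_of_Icc hL.le; fun_prop
      · intro x hx
        have := young_aux (z := z x) (p := p x) (x := x - L) hL hε (by linarith [hx.1]) (by linarith [hx.2])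
        have e : L * (ε * p x ^ 2 + (1 / L + 1 / ε) * z x ^ 2) = z x ^ 2 + L * (ε * p x ^ 2 + z x ^ 2 / ε) := by
          field_simp
          ring
        rw [e]; linarith
    rw [key, intervalIntegral.integral_const_mul] at h1
    simp only [sub_self, zero_mul, zero_sub, neg_mul, sub_neg_eq_add, zero_add] at h1
    exact le_of_mul_le_mul_left h1 hL
  · intro x hx
    have d := ((hasDerivWithinAt_id x (Icc 0 L)).sub_const L).mul ((h.h1 x hx).pow 2)
    refine (d.congr_deriv ?_).congr (fun y hy => ?_) ?_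
    · simp; ring
    · simp
    · simp
  · fun_prop



lemma quad_le (α β γ x y : ℝ) :
    α * x ^ 2 + 2 * β * (x * y) + γ * y ^ 2 ≤ (|α| + |β| + |γ|) * (x ^ 2 + y ^ 2) := by
  have h1 : α * x ^ 2 ≤ |α| * x ^ 2 := by gcongr; exact le_abs_self _
  have h2 : γ * y ^ 2 ≤ |γ| * y ^ 2 := by gcongr; exact le_abs_self _
  have h3 : 2 * β * (x * y) ≤ |β| * (x ^ 2 + y ^ 2) := by
    have h4 : 2 * β * (x * y) ≤ |2 * β * (x * y)| := le_abs_self _
    have h5 : |2 * β * (x * y)| = |β| * (2 * (|x| * |y|)) := by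
      rw [abs_mul, abs_mul, abs_mul]; simp; ring
    have h6 : 2 * (|x| * |y|) ≤ x ^ 2 + y ^ 2 := by
      nlinarith [sq_nonneg (|x| - |y|), sq_abs x, sq_abs y]
    calc 2 * β * (x * y) ≤ |β| * (2 * (|x| * |y|)) := by rw [← h5]; exact h4
      _ ≤ |β| * (x ^ 2 + y ^ 2) := by gcongr
  nlinarith [abs_nonneg α, abs_nonneg β, abs_nonneg γ, sq_nonneg x, sq_nonneg y,
    mul_nonneg (abs_nonneg α) (sq_nonneg y), mul_nonneg (abs_nonneg γ) (sq_nonneg x)]

lemma boundary_core (a10 a11 a20 a21 a30 b10 b20 b30 L : ℝ) :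
    ∃ C, 0 ≤ C ∧ ∀ z0 p0 q0 zL pL qL : ℝ,
      z0 * q0 = -(z0 * (a10 * z0 + a11 * p0 + b10 * zL)) →
      zL * qL = -(zL * (a20 * z0 + a21 * p0 + b20 * zL)) →
      pL = -(a30 * z0 + b30 * zL) →
      -2 * (1 + L) * zL * qL + (1 + L) * pL ^ 2 + 2 * zL * pL - (1 + L) * zL ^ 2
        + 2 * z0 * q0 - p0 ^ 2 - 2 * z0 * p0 + z0 ^ 2 ≤ C * (z0 ^ 2 + zL ^ 2) := by
  set m := (1 + L) * a21
  set n := a11 + 1
  refine ⟨|n ^ 2 + (1 + L) * a30 ^ 2 - 2 * a10 + 1|
    + |(1 + L) * a20 - m * n + (1 + L) * a30 * b30 - a30 - b10|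
    + |m ^ 2 + 2 * (1 + L) * b20 + (1 + L) * b30 ^ 2 - 2 * b30 - (1 + L)|, by positivity, ?_⟩
  intro z0 p0 q0 zL pL qL h1 h2 h3
  refine le_trans ?_ (quad_le _ _ _ z0 zL)
  subst h3
  have h4 : -p0 ^ 2 + 2 * p0 * (m * zL - n * z0) ≤ (m * zL - n * z0) ^ 2 := by
    nlinarith [sq_nonneg (p0 - (m * zL - n * z0))]
  have e1 : -2 * (1 + L) * zL * qL = 2 * (1 + L) * (zL * (a20 * z0 + a21 * p0 + b20 * zL)) := by
    have : -2 * (1 + L) * zL * qL = -2 * (1 + L) * (zL * qL) := by ring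
    rw [this, h2]; ring
  have e2 : 2 * z0 * q0 = -2 * (z0 * (a10 * z0 + a11 * p0 + b10 * zL)) := by
    have : 2 * z0 * q0 = 2 * (z0 * q0) := by ring
    rw [this, h1]; ring
  rw [e1, e2]
  simp only [m, n] at h4 ⊢
  nlinarith [h4]


/-- spatial energy inequality with weight `1 + x` for homogeneous boundary conditions -/
lemma energy_bound (a10 a11 a20 a21 a30 b10 b20 b30 : ℝ) {L : ℝ} (hL : 0 < L) :
    ∃ C, 0 ≤ C ∧ ∀ z p q r : ℝ → ℝ, C3 L z p q r →
      z 0 * q 0 = -(z 0 * (a10 * z 0 + a11 * p 0 + b10 * z L)) →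
      z L * q L = -(z L * (a20 * z 0 + a21 * p 0 + b20 * z L)) →
      p L = -(a30 * z 0 + b30 * z L) →
      ∫ x in (0:ℝ)..L, (-(2 * (1 + x) * z x * (r x + p x))) ≤
        ∫ x in (0:ℝ)..L, (-2 * p x ^ 2 + C * z x ^ 2) := by
  obtain ⟨B, hB0, hB⟩ := boundary_core a10 a11 a20 a21 a30 b10 b20 b30 L
  set ε : ℝ := 1 / (2 * B + 2) with hε
  have hεpos : 0 < ε := by positivity
  set K : ℝ := 1 / L + 1 / ε with hK
  have hKpos : 0 < K := by positivity
  refine ⟨1 + 2 * B * K, by positivity, ?_⟩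
  intro z p q r h h0 hLq hp
  have cz := h.cz
  have cp := h.cp
  have cq := h.cq
  have cr := h.hr
  have hid := energy_identity hL.le h
  have hQ := hB (z 0) (p 0) (q 0) (z L) (p L) (q L) h0 hLq hp
  have htr := trace_right hL h hεpos
  have htl := trace_left hL h hεpos
  rw [← hK] at htr htl
  have i1 : IntervalIntegrable (fun x => (-(2 * (1 + x) * z x * (r x + p x)))) volume 0 L := by
    apply ContinuousOn.intervalIntegrable_of_Icc hL.le; fun_prop
  have i2 : IntervalIntegrable (fun x => 3 * p x ^ 2) volume 0 L := by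
    apply ContinuousOn.intervalIntegrable_of_Icc hL.le; fun_prop
  have i3 : IntervalIntegrable (fun x => z x ^ 2) volume 0 L := by
    apply ContinuousOn.intervalIntegrable_of_Icc hL.le; fun_prop
  have i4 : IntervalIntegrable (fun x => p x ^ 2) volume 0 L := by
    apply ContinuousOn.intervalIntegrable_of_Icc hL.le; fun_prop
  have e1 : ∫ x in (0:ℝ)..L, (-(2 * (1 + x) * z x * (r x + p x)) + 3 * p x ^ 2 - z x ^ 2)
      = (∫ x in (0:ℝ)..L, (-(2 * (1 + x) * z x * (r x + p x)))) + 3 * (∫ x in (0:ℝ)..L, p x ^ 2)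
        - ∫ x in (0:ℝ)..L, z x ^ 2 := by
    rw [intervalIntegral.integral_sub (i1.add i2) i3, intervalIntegral.integral_add i1 i2,
      intervalIntegral.integral_const_mul]
  have e2 : ∫ x in (0:ℝ)..L, (ε * p x ^ 2 + K * z x ^ 2)
      = ε * (∫ x in (0:ℝ)..L, p x ^ 2) + K * ∫ x in (0:ℝ)..L, z x ^ 2 := by
    rw [intervalIntegral.integral_add (i4.const_mul _) (i3.const_mul _),
      intervalIntegral.integral_const_mul, intervalIntegral.integral_const_mul]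
  have e3 : ∫ x in (0:ℝ)..L, (-2 * p x ^ 2 + (1 + 2 * B * K) * z x ^ 2)
      = -2 * (∫ x in (0:ℝ)..L, p x ^ 2) + (1 + 2 * B * K) * ∫ x in (0:ℝ)..L, z x ^ 2 := by
    rw [intervalIntegral.integral_add (i4.const_mul _) (i3.const_mul _),
      intervalIntegral.integral_const_mul, intervalIntegral.integral_const_mul]
  rw [e2] at htr htl
  rw [e1] at hid
  rw [e3]
  set P := ∫ x in (0:ℝ)..L, p x ^ 2
  set Z := ∫ x in (0:ℝ)..L, z x ^ 2
  have hP : 0 ≤ P := intervalIntegral.integral_nonneg hL.le (fun x _ => sq_nonneg _)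
  have hZ : 0 ≤ Z := intervalIntegral.integral_nonneg hL.le (fun x _ => sq_nonneg _)
  have hBε : 2 * B * ε ≤ 1 := by
    rw [hε, mul_one_div, div_le_one (by positivity)]; linarith
  have hsum : B * (z 0 ^ 2 + z L ^ 2) ≤ 2 * B * ε * P + 2 * B * K * Z := by
    have : z 0 ^ 2 + z L ^ 2 ≤ 2 * (ε * P + K * Z) := by linarith
    calc B * (z 0 ^ 2 + z L ^ 2) ≤ B * (2 * (ε * P + K * Z)) := by gcongr
      _ = _ := by ring
  have hsum2 : 2 * B * ε * P ≤ 1 * P := by gcongr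
  linarith

lemma lineSobolevSq_schwartz_lt_top (s : ℝ) (f : 𝓢(ℝ, ℂ)) : lineSobolevSq s (f.toLp 2) < ∞ := by
  let G : 𝓢(ℝ, ℂ) := SchwartzMap.smulLeftCLM ℂ (fun ξ : ℝ => ((1 + ‖ξ‖ ^ 2) ^ (s / 2) : ℝ)) (𝓕 f)
  have hg : (fun ξ : ℝ => ((1 + ‖ξ‖ ^ 2) ^ (s / 2) : ℝ)).HasTemperateGrowth := by
    fun_prop
  have hG : ∀ ξ, G ξ = ((1 + ‖ξ‖ ^ 2) ^ (s / 2) : ℝ) • (𝓕 f) ξ := by
    intro ξ
    exact SchwartzMap.smulLeftCLM_apply_apply hg _ _
  have h1 : lineSobolevSq s (f.toLp 2) = ∫⁻ ξ : ℝ, ‖G ξ‖ₑ ^ 2 := by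
    unfold lineSobolevSq
    rw [SchwartzMap.toLp_fourier_eq]
    apply lintegral_congr_ae
    filter_upwards [(𝓕 f).coeFn_toLp 2 volume] with ξ hξ
    rw [hξ, hG, enorm_smul, mul_pow]
    congr 1
    rw [Real.enorm_eq_ofReal (by positivity), ← ENNReal.ofReal_pow (by positivity)]
    congr 1
    have e : ((1 + ‖ξ‖ ^ 2) ^ (s / 2)) ^ 2 = (1 + ‖ξ‖ ^ 2) ^ s := by
      rw [← Real.rpow_natCast ((1 + ‖ξ‖ ^ 2) ^ (s / 2)) 2, ← Real.rpow_mul (by positivity)]
      congr 1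
      push_cast; ring
    rw [e]; simp
  rw [h1]
  have h2 := (G.memLp 2 volume).2
  rw [eLpNorm_lt_top_iff_lintegral_rpow_enorm_lt_top (by norm_num) (by norm_num)] at h2
  simpa using h2


lemma lineSobolevSq_comb (s : ℝ) (F G : Lp ℂ 2 (volume : Measure ℝ)) (a b : ℝ) :
    lineSobolevSq s ((a : ℂ) • F + (b : ℂ) • G) ≤
      ENNReal.ofReal (2 * (|a| + |b|) ^ 2) * (lineSobolevSq s F + lineSobolevSq s G) := by
  unfold lineSobolevSq
  have hF : AEMeasurable (fun ξ : ℝ => ENNReal.ofReal ((1 + ξ ^ 2) ^ s) *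
      ‖(𝓕 F : Lp ℂ 2 (volume : Measure ℝ)) ξ‖ₑ ^ 2) := by
    refine AEMeasurable.mul (f := fun ξ : ℝ => ENNReal.ofReal ((1 + ξ ^ 2) ^ s))
      (g := fun ξ : ℝ => ‖(𝓕 F : Lp ℂ 2 (volume : Measure ℝ)) ξ‖ₑ ^ 2) ?_ ?_
    · apply Measurable.aemeasurable; fun_prop
    · exact (Lp.aestronglyMeasurable _).enorm.pow_const 2
  rw [← lintegral_add_left' hF, ← lintegral_const_mul' _ _ ENNReal.ofReal_ne_top]
  apply lintegral_mono_ae
  have h1 : 𝓕 ((a : ℂ) • F + (b : ℂ) • G) = (a : ℂ) • 𝓕 F + (b : ℂ) • 𝓕 G := by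
    rw [FourierAdd.fourier_add, FourierSMul.fourier_smul, FourierSMul.fourier_smul]
  rw [h1]
  filter_upwards [Lp.coeFn_add ((a : ℂ) • 𝓕 F) ((b : ℂ) • 𝓕 G), Lp.coeFn_smul (a : ℂ) (𝓕 F),
    Lp.coeFn_smul (b : ℂ) (𝓕 G)] with ξ h2 h3 h4
  rw [h2, Pi.add_apply, h3, h4, Pi.smul_apply, Pi.smul_apply]
  set x : ℂ := (𝓕 F : Lp ℂ 2 (volume : Measure ℝ)) ξ
  set y : ℂ := (𝓕 G : Lp ℂ 2 (volume : Measure ℝ)) ξ
  have h5 : ‖(a : ℂ) • x + (b : ℂ) • y‖ₑ ^ 2 ≤
      ENNReal.ofReal (2 * (|a| + |b|) ^ 2) * (‖x‖ₑ ^ 2 + ‖y‖ₑ ^ 2) := by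
    rw [← ofReal_norm, ← ofReal_norm, ← ofReal_norm,
      ← ENNReal.ofReal_pow (norm_nonneg _), ← ENNReal.ofReal_pow (norm_nonneg _),
      ← ENNReal.ofReal_pow (norm_nonneg _), ← ENNReal.ofReal_add (by positivity) (by positivity),
      ← ENNReal.ofReal_mul (by positivity)]
    apply ENNReal.ofReal_le_ofReal
    have h6 : ‖(a : ℂ) • x + (b : ℂ) • y‖ ≤ |a| * ‖x‖ + |b| * ‖y‖ := by
      refine (norm_add_le _ _).trans ?_
      rw [norm_smul, norm_smul]; simp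
    calc ‖(a : ℂ) • x + (b : ℂ) • y‖ ^ 2 ≤ (|a| * ‖x‖ + |b| * ‖y‖) ^ 2 := by gcongr
      _ ≤ 2 * (|a| + |b|) ^ 2 * (‖x‖ ^ 2 + ‖y‖ ^ 2) := by
        have ha := abs_nonneg a
        have hb := abs_nonneg b
        have hx := norm_nonneg x
        have hy := norm_nonneg y
        have e1 : |a| * ‖x‖ + |b| * ‖y‖ ≤ (|a| + |b|) * (‖x‖ + ‖y‖) := by nlinarith [mul_nonneg ha hy, mul_nonneg hb hx]
        have e2 : (‖x‖ + ‖y‖) ^ 2 ≤ 2 * (‖x‖ ^ 2 + ‖y‖ ^ 2) := by nlinarith [sq_nonneg (‖x‖ - ‖y‖)]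
        calc (|a| * ‖x‖ + |b| * ‖y‖) ^ 2 ≤ ((|a| + |b|) * (‖x‖ + ‖y‖)) ^ 2 := by gcongr
          _ = (|a| + |b|) ^ 2 * (‖x‖ + ‖y‖) ^ 2 := by ring
          _ ≤ (|a| + |b|) ^ 2 * (2 * (‖x‖ ^ 2 + ‖y‖ ^ 2)) := by gcongr
          _ = _ := by ring
  calc ENNReal.ofReal ((1 + ξ ^ 2) ^ s) * ‖(a : ℂ) • x + (b : ℂ) • y‖ₑ ^ 2
      ≤ ENNReal.ofReal ((1 + ξ ^ 2) ^ s) * (ENNReal.ofReal (2 * (|a| + |b|) ^ 2) * (‖x‖ₑ ^ 2 + ‖y‖ₑ ^ 2)) := by
        gcongr
    _ = _ := by ring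

/-- the `H^s(0,L)` norm of an affine function is controlled by its coefficients -/
lemma sobNorm_affine (s L : ℝ) : ∃ C : ℝ≥0∞, C ≠ ∞ ∧ ∀ a b : ℝ,
    sobNorm s L (fun x => a + b * x) ≤ C * ENNReal.ofReal (|a| + |b|) := by
  obtain ⟨χ, hχ⟩ : ∃ χ : ContDiffBump (0 : ℝ), χ.rIn = |L| + 1 :=
    ⟨⟨|L| + 1, |L| + 2, by positivity, by linarith⟩, rfl⟩
  have hs1 : ContDiff ℝ ((⊤ : ℕ∞) : WithTop ℕ∞) (fun x : ℝ => ((χ x : ℝ) : ℂ)) :=
    Complex.ofRealCLM.contDiff.comp χ.contDiff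
  have hs2 : ContDiff ℝ ((⊤ : ℕ∞) : WithTop ℕ∞) (fun x : ℝ => ((x * χ x : ℝ) : ℂ)) :=
    Complex.ofRealCLM.contDiff.comp (contDiff_id.mul χ.contDiff)
  have hc1 : HasCompactSupport (fun x : ℝ => ((χ x : ℝ) : ℂ)) :=
    χ.hasCompactSupport.comp_left (g := fun y : ℝ => (y : ℂ)) (by simp)
  have hc2 : HasCompactSupport (fun x : ℝ => ((x * χ x : ℝ) : ℂ)) :=
    (χ.hasCompactSupport.mul_left (f := fun x : ℝ => x)).comp_left (g := fun y : ℝ => (y : ℂ)) (by simp)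
  set F1 : 𝓢(ℝ, ℂ) := hc1.toSchwartzMap hs1 with hF1
  set F2 : 𝓢(ℝ, ℂ) := hc2.toSchwartzMap hs2 with hF2
  have hF1x : ∀ x, F1 x = ((χ x : ℝ) : ℂ) := fun x => rfl
  have hF2x : ∀ x, F2 x = ((x * χ x : ℝ) : ℂ) := fun x => rfl
  set K : ℝ≥0∞ := lineSobolevSq s (F1.toLp 2) + lineSobolevSq s (F2.toLp 2) with hK
  have hKtop : K ≠ ∞ :=
    ENNReal.add_ne_top.2 ⟨(lineSobolevSq_schwartz_lt_top s F1).ne, (lineSobolevSq_schwartz_lt_top s F2).ne⟩
  refine ⟨(2 * K) ^ (1 / 2 : ℝ), ENNReal.rpow_ne_top_of_nonneg (by norm_num)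
    (ENNReal.mul_ne_top (by norm_num) hKtop), ?_⟩
  intro a b
  have hae : ∀ᵐ x ∂(volume.restrict (Ioo 0 L)),
      ((a : ℂ) • F1.toLp 2 volume + (b : ℂ) • F2.toLp 2 volume : Lp ℂ 2 (volume : Measure ℝ)) x
        = ((a + b * x : ℝ) : ℂ) := by
    have h0 : ∀ᵐ x ∂(volume : Measure ℝ), x ∈ Ioo 0 L →
      ((a : ℂ) • F1.toLp 2 volume + (b : ℂ) • F2.toLp 2 volume : Lp ℂ 2 (volume : Measure ℝ)) x
        = ((a + b * x : ℝ) : ℂ) := by
      filter_upwards [Lp.coeFn_add ((a : ℂ) • F1.toLp 2 volume) ((b : ℂ) • F2.toLp 2 volume),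
        Lp.coeFn_smul (a : ℂ) (F1.toLp 2 volume), Lp.coeFn_smul (b : ℂ) (F2.toLp 2 volume),
        F1.coeFn_toLp 2 volume, F2.coeFn_toLp 2 volume] with x h2 h3 h4 h5 h6 hx
      rw [h2, Pi.add_apply, h3, h4, Pi.smul_apply, Pi.smul_apply, h5, h6]
      have hχ1 : χ x = 1 := by
        apply χ.one_of_mem_closedBall
        rw [mem_closedBall_zero_iff, hχ, Real.norm_eq_abs]
        have : |x| = x := abs_of_pos hx.1
        rw [this]
        have := le_abs_self L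
        linarith [hx.2]
      rw [hF1x, hF2x, hχ1]
      simp
    exact (ae_restrict_iff' measurableSet_Ioo).2 h0
  calc sobNorm s L (fun x => a + b * x)
      ≤ (lineSobolevSq s ((a : ℂ) • F1.toLp 2 volume + (b : ℂ) • F2.toLp 2 volume)) ^ (1 / 2 : ℝ) := by
        unfold sobNorm
        exact iInf_le_of_le _ (iInf_le_of_le hae le_rfl)
    _ ≤ (ENNReal.ofReal (2 * (|a| + |b|) ^ 2) * K) ^ (1 / 2 : ℝ) := by
        apply ENNReal.rpow_le_rpow (lineSobolevSq_comb s _ _ a b) (by norm_num)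
    _ = (2 * K) ^ (1 / 2 : ℝ) * ENNReal.ofReal (|a| + |b|) := by
        rw [ENNReal.ofReal_mul (by norm_num), ENNReal.ofReal_pow (by positivity)]
        have : ENNReal.ofReal 2 * ENNReal.ofReal (|a| + |b|) ^ 2 * K
            = (2 * K) * (ENNReal.ofReal (|a| + |b|) ^ (2 : ℝ)) := by
          rw [ENNReal.rpow_two]; simp; ring
        rw [this, ENNReal.mul_rpow_of_nonneg _ _ (by norm_num), ← ENNReal.rpow_mul]
        norm_num

/-- for `s ≥ 0` the `H^s(0,L)` norm dominates the `L²(0,L)` norm -/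
lemma eLpNorm_le_sobNorm {s : ℝ} (hs : 0 ≤ s) (L : ℝ) (f : ℝ → ℝ) :
    eLpNorm f 2 (volume.restrict (Ioo 0 L)) ≤ sobNorm s L f := by
  unfold sobNorm
  refine le_iInf₂ fun F hF => ?_
  have h1 : eLpNorm f 2 (volume.restrict (Ioo 0 L)) = eLpNorm F 2 (volume.restrict (Ioo 0 L)) := by
    have : eLpNorm F 2 (volume.restrict (Ioo 0 L)) =
        eLpNorm (fun x => (f x : ℂ)) 2 (volume.restrict (Ioo 0 L)) := eLpNorm_congr_ae hF
    rw [this]
    apply eLpNorm_congr_enorm_ae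
    filter_upwards with x
    simp [← ofReal_norm]
  rw [h1]
  calc eLpNorm F 2 (volume.restrict (Ioo 0 L)) ≤ eLpNorm F 2 volume :=
        eLpNorm_mono_measure _ Measure.restrict_le_self
    _ = eLpNorm (𝓕 F : Lp ℂ 2 (volume : Measure ℝ)) 2 volume := by
        rw [← Lp.enorm_def, ← Lp.enorm_def, ← ofReal_norm, ← ofReal_norm, Lp.norm_fourier_eq]
    _ ≤ (lineSobolevSq s F) ^ (1 / 2 : ℝ) := by
        rw [eLpNorm_eq_lintegral_rpow_enorm_toReal (by norm_num) (by norm_num)]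
        simp only [ENNReal.toReal_ofNat]
        apply ENNReal.rpow_le_rpow _ (by norm_num)
        unfold lineSobolevSq
        apply lintegral_mono
        intro ξ
        simp only [ENNReal.rpow_two]
        have h2 : (1 : ℝ≥0∞) ≤ ENNReal.ofReal ((1 + ξ ^ 2) ^ s) := by
          rw [← ENNReal.ofReal_one]
          apply ENNReal.ofReal_le_ofReal
          apply Real.one_le_rpow _ hs
          nlinarith [sq_nonneg ξ]
        calc ‖(𝓕 F : Lp ℂ 2 (volume : Measure ℝ)) ξ‖ₑ ^ 2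
            = 1 * ‖(𝓕 F : Lp ℂ 2 (volume : Measure ℝ)) ξ‖ₑ ^ 2 := (one_mul _).symm
          _ ≤ _ := by gcongr

/-- finite `H^s(0,L)` norm implies measurability on `(0,L)` -/
lemma aestronglyMeasurable_of_sobNorm {s L : ℝ} {f : ℝ → ℝ} (h : sobNorm s L f < ∞) :
    AEStronglyMeasurable f (volume.restrict (Ioo 0 L)) := by
  unfold sobNorm at h
  rw [iInf_lt_iff] at h
  obtain ⟨F, hF⟩ := h
  rw [iInf_lt_iff] at hF
  obtain ⟨hF, -⟩ := hF
  have h1 : AEStronglyMeasurable (fun x => (F x).re) (volume.restrict (Ioo 0 L)) :=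
    (Complex.continuous_re.comp_aestronglyMeasurable (Lp.aestronglyMeasurable F)).restrict
  refine h1.congr ?_
  filter_upwards [hF] with x hx
  rw [hx]; simp


/-! ### derivatives on `[0,L]` -/

lemma c3_of_contDiffOn {L : ℝ} (hL : 0 < L) {f : ℝ → ℝ} (hf : ContDiffOn ℝ 3 f (Icc 0 L)) :
    C3 L f (dx L 1 f) (dx L 2 f) (dx L 3 f) := by
  have hu : UniqueDiffOn ℝ (Icc 0 L) := uniqueDiffOn_Icc hL
  have hstep : ∀ j : ℕ, (j : ℕ) < 3 → ∀ x ∈ Icc 0 L,
      HasDerivWithinAt (iteratedDerivWithin j f (Icc 0 L)) (dx L (j + 1) f x) (Icc 0 L) x := by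
    intro j hj x hx
    have h1 : DifferentiableOn ℝ (iteratedDerivWithin j f (Icc 0 L)) (Icc 0 L) := by
      apply hf.differentiableOn_iteratedDerivWithin _ hu
      exact_mod_cast hj
    have h2 := (h1 x hx).hasDerivWithinAt
    rw [← iteratedDerivWithin_succ] at h2
    exact h2
  refine ⟨?_, hstep 1 (by norm_num), hstep 2 (by norm_num), ?_⟩
  · intro x hx
    have := hstep 0 (by norm_num) x hx
    rwa [iteratedDerivWithin_zero] at this
  · exact hf.continuousOn_iteratedDerivWithin (by norm_num) hu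

lemma C3.sub {L : ℝ} {z p q r z' p' q' r' : ℝ → ℝ} (h : C3 L z p q r) (h' : C3 L z' p' q' r') :
    C3 L (fun x => z x - z' x) (fun x => p x - p' x) (fun x => q x - q' x)
      (fun x => r x - r' x) :=
  ⟨fun x hx => (h.h1 x hx).sub (h'.h1 x hx), fun x hx => (h.h2 x hx).sub (h'.h2 x hx),
    fun x hx => (h.h3 x hx).sub (h'.h3 x hx), h.hr.sub h'.hr⟩

/-- spatial energy inequality for the difference of two functions with equal boundary data -/
lemma energy_diff (k : ℕ) (c : Coeffs) {L : ℝ} (hL : 0 < L) :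
    ∃ C, 0 ≤ C ∧ ∀ f g : ℝ → ℝ, ContDiffOn ℝ 3 f (Icc 0 L) → ContDiffOn ℝ 3 g (Icc 0 L) →
      bdry k c L f = bdry k c L g →
      ∫ x in (0:ℝ)..L, (-(2 * (1 + x) * (f x - g x) * ((dx L 3 f x - dx L 3 g x)
          + (dx L 1 f x - dx L 1 g x)))) ≤
        ∫ x in (0:ℝ)..L, (-2 * (dx L 1 f x - dx L 1 g x) ^ 2 + C * (f x - g x) ^ 2) := by
  have key : ∀ a10 a11 a20 a21 a30 b10 b20 b30 : ℝ,
      (∀ f g : ℝ → ℝ, bdry k c L f = bdry k c L g →
        ((f 0 - g 0) * (dx L 2 f 0 - dx L 2 g 0) = -((f 0 - g 0) * (a10 * (f 0 - g 0)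
            + a11 * (dx L 1 f 0 - dx L 1 g 0) + b10 * (f L - g L)))) ∧
        ((f L - g L) * (dx L 2 f L - dx L 2 g L) = -((f L - g L) * (a20 * (f 0 - g 0)
            + a21 * (dx L 1 f 0 - dx L 1 g 0) + b20 * (f L - g L)))) ∧
        (dx L 1 f L - dx L 1 g L = -(a30 * (f 0 - g 0) + b30 * (f L - g L)))) →
      ∃ C, 0 ≤ C ∧ ∀ f g : ℝ → ℝ, ContDiffOn ℝ 3 f (Icc 0 L) → ContDiffOn ℝ 3 g (Icc 0 L) →
      bdry k c L f = bdry k c L g →
      ∫ x in (0:ℝ)..L, (-(2 * (1 + x) * (f x - g x) * ((dx L 3 f x - dx L 3 g x)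
          + (dx L 1 f x - dx L 1 g x)))) ≤
        ∫ x in (0:ℝ)..L, (-2 * (dx L 1 f x - dx L 1 g x) ^ 2 + C * (f x - g x) ^ 2) := by
    intro a10 a11 a20 a21 a30 b10 b20 b30 hbc
    obtain ⟨C, hC0, hC⟩ := energy_bound a10 a11 a20 a21 a30 b10 b20 b30 hL
    refine ⟨C, hC0, fun f g hf hg hfg => ?_⟩
    obtain ⟨h1, h2, h3⟩ := hbc f g hfg
    exact hC _ _ _ _ ((c3_of_contDiffOn hL hf).sub (c3_of_contDiffOn hL hg)) h1 h2 h3
  have key4 : (∀ v, bdry k c L v = ![dx L 2 v 0 + (c.a10 * v 0 + c.a11 * dx L 1 v 0 + c.b10 * v L),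
           dx L 1 v L + (c.a30 * v 0 + c.b30 * v L),
           dx L 2 v L + (c.a20 * v 0 + c.a21 * dx L 1 v 0 + c.b20 * v L)]) →
      ∃ C, 0 ≤ C ∧ ∀ f g : ℝ → ℝ, ContDiffOn ℝ 3 f (Icc 0 L) → ContDiffOn ℝ 3 g (Icc 0 L) →
      bdry k c L f = bdry k c L g →
      ∫ x in (0:ℝ)..L, (-(2 * (1 + x) * (f x - g x) * ((dx L 3 f x - dx L 3 g x)
          + (dx L 1 f x - dx L 1 g x)))) ≤
        ∫ x in (0:ℝ)..L, (-2 * (dx L 1 f x - dx L 1 g x) ^ 2 + C * (f x - g x) ^ 2) := by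
    intro hk
    apply key c.a10 c.a11 c.a20 c.a21 c.a30 c.b10 c.b20 c.b30
    intro f g hfg
    rw [hk, hk] at hfg
    have e0 := congrFun hfg 0
    have e1 := congrFun hfg 1
    have e2 := congrFun hfg 2
    simp at e0 e1 e2
    refine ⟨?_, ?_, by linarith⟩
    · have : dx L 2 f 0 - dx L 2 g 0 = -(c.a10 * (f 0 - g 0)
            + c.a11 * (dx L 1 f 0 - dx L 1 g 0) + c.b10 * (f L - g L)) := by linarith
      rw [this]; ring
    · have : dx L 2 f L - dx L 2 g L = -(c.a20 * (f 0 - g 0)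
            + c.a21 * (dx L 1 f 0 - dx L 1 g 0) + c.b20 * (f L - g L)) := by linarith
      rw [this]; ring
  rcases k with _ | _ | _ | _ | k
  · exact key4 (fun v => rfl)
  · apply key 0 0 0 0 0 0 0 0
    intro f g hfg
    have e0 := congrFun hfg 0
    have e1 := congrFun hfg 1
    have e2 := congrFun hfg 2
    simp [bdry] at e0 e1 e2
    rw [e0, e1, e2]; simp
  · apply key 0 0 0 c.a21 0 0 c.b20 c.b30
    intro f g hfg
    have e0 := congrFun hfg 0
    have e1 := congrFun hfg 1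
    have e2 := congrFun hfg 2
    simp [bdry] at e0 e1 e2
    refine ⟨by rw [e0]; simp, ?_, by linarith⟩
    have : dx L 2 f L - dx L 2 g L = -(0 * (f 0 - g 0)
          + c.a21 * (dx L 1 f 0 - dx L 1 g 0) + c.b20 * (f L - g L)) := by linarith
    rw [this]; ring
  · apply key c.a10 c.a11 0 0 c.a30 0 0 0
    intro f g hfg
    have e0 := congrFun hfg 0
    have e1 := congrFun hfg 1
    have e2 := congrFun hfg 2
    simp [bdry] at e0 e1 e2
    refine ⟨?_, by rw [e1]; simp, by rw [e1]; linarith⟩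
    have : dx L 2 f 0 - dx L 2 g 0 = -(c.a10 * (f 0 - g 0)
          + c.a11 * (dx L 1 f 0 - dx L 1 g 0) + 0 * (f L - g L)) := by linarith
    rw [this]; ring
  · exact key4 (fun v => rfl)


/-! ### uniqueness of classical solutions -/

lemma IsSolution.mono {k : ℕ} {c : Coeffs} {L T T₁ : ℝ} {φ : ℝ → ℝ} {h : Fin 3 → ℝ → ℝ}
    {u : ℝ → ℝ → ℝ} (hu : IsSolution k c L T φ h u) (hT : T₁ ≤ T) :
    IsSolution k c L T₁ φ h u := by
  have hsub : Ico 0 T₁ ⊆ Ico 0 T := Ico_subset_Ico_right hT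
  have hd : ∀ t ∈ Ico 0 T₁, ∀ f : ℝ → ℝ,
      derivWithin f (Ico 0 T₁) t = derivWithin f (Ico 0 T) t := by
    intro t ht f
    apply derivWithin_congr_set
    have h1 : Iio T₁ ∈ 𝓝 t := Iio_mem_nhds ht.2
    filter_upwards [h1] with y hy
    have hy' : y < T₁ := hy
    apply propext
    constructor
    · intro h2; exact hsub h2
    · intro h2; exact ⟨h2.1, hy'⟩
  refine ⟨fun x hx => (hu.diff_t x hx).mono hsub, fun t ht => hu.diff_x t (hsub ht), ?_,
    fun j hj => (hu.cont_x j hj).mono (prod_mono hsub (subset_refl _)), ?_, hu.init,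
    fun t ht => hu.bc t (hsub ht)⟩
  · refine (hu.cont_t.mono (prod_mono hsub (subset_refl _))).congr ?_
    intro z hz
    exact hd z.1 hz.1 _
  · intro t ht x hx
    rw [hd t ht]
    exact hu.pde t (hsub ht) x hx

theorem unique {k : ℕ} {c : Coeffs} {L T : ℝ} (hL : 0 < L) {φ : ℝ → ℝ} {h : Fin 3 → ℝ → ℝ}
    {u v : ℝ → ℝ → ℝ} (hu : IsSolution k c L T φ h u) (hv : IsSolution k c L T φ h v) :
    ∀ t ∈ Ico 0 T, ∀ x ∈ Icc 0 L, v t x = u t x := by
  intro T' hT' 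
  rcases hT'.1.eq_or_lt with h0 | hpos
  · intro x hx
    rw [← h0, hv.init x hx, hu.init x hx]
  have hsubC : Icc 0 T' ⊆ Ico 0 T := fun y hy => ⟨hy.1, hy.2.trans_lt hT'.2⟩
  have hrect : IsCompact (Icc 0 T' ×ˢ Icc 0 L) := isCompact_Icc.prod isCompact_Icc
  have cu : ∀ j ≤ 3, ContinuousOn (fun z : ℝ × ℝ => dx L j (u z.1) z.2) (Icc 0 T' ×ˢ Icc 0 L) :=
    fun j hj => (hu.cont_x j hj).mono (prod_mono hsubC (subset_refl _))
  have cv : ∀ j ≤ 3, ContinuousOn (fun z : ℝ × ℝ => dx L j (v z.1) z.2) (Icc 0 T' ×ˢ Icc 0 L) :=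
    fun j hj => (hv.cont_x j hj).mono (prod_mono hsubC (subset_refl _))
  have cu0 : ContinuousOn (fun z : ℝ × ℝ => u z.1 z.2) (Icc 0 T' ×ˢ Icc 0 L) := by
    have := cu 0 (by norm_num); simpa [dx] using this
  have cv0 : ContinuousOn (fun z : ℝ × ℝ => v z.1 z.2) (Icc 0 T' ×ˢ Icc 0 L) := by
    have := cv 0 (by norm_num); simpa [dx] using this
  have cut := hu.cont_t.mono (prod_mono hsubC (subset_refl (Icc (0:ℝ) L)))
  have cvt := hv.cont_t.mono (prod_mono hsubC (subset_refl (Icc (0:ℝ) L)))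
  obtain ⟨M1, hM1⟩ := hrect.exists_bound_of_continuousOn cv0
  obtain ⟨M2, hM2⟩ := hrect.exists_bound_of_continuousOn (cu 1 (by norm_num))
  set M := max 0 (max M1 M2) with hM
  have hM0 : 0 ≤ M := le_max_left _ _
  obtain ⟨C, hC0, hC⟩ := energy_diff k c hL
  set K := C + ((1 + L) ^ 2 * M ^ 2 + 2 * (1 + L) * M) with hK
  have hK0 : 0 ≤ K := by positivity
  -- the energy and its derivative
  set Y : ℝ → ℝ := fun t => ∫ x in (0:ℝ)..L, (1 + x) * (v t x - u t x) ^ 2 with hY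
  set vt : ℝ → ℝ → ℝ := fun t x => derivWithin (fun τ => v τ x) (Ico 0 T) t with hvt
  set ut : ℝ → ℝ → ℝ := fun t x => derivWithin (fun τ => u τ x) (Ico 0 T) t with hut
  have hYc : ContinuousOn Y (Icc 0 T') := by
    apply continuousOn_param hT'.1 hL.le
    fun_prop
  have hIoo : Ioo 0 T' ⊆ Icc 0 T' := Ioo_subset_Icc_self
  have hYd : ∀ t ∈ Ioo 0 T', HasDerivAt Y
      (∫ x in (0:ℝ)..L, 2 * (1 + x) * (v t x - u t x) * (vt t x - ut t x)) t := by
    intro t ht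
    apply hasDerivAt_param (F := fun t x => (1 + x) * (v t x - u t x) ^ 2)
      (F' := fun t x => 2 * (1 + x) * (v t x - u t x) * (vt t x - ut t x)) hL.le ht
    · have c1 := cv0.mono (prod_mono hIoo (subset_refl (Icc (0:ℝ) L)))
      have c2 := cu0.mono (prod_mono hIoo (subset_refl (Icc (0:ℝ) L)))
      fun_prop
    · have c1 := cv0.mono (prod_mono hIoo (subset_refl (Icc (0:ℝ) L)))
      have c2 := cu0.mono (prod_mono hIoo (subset_refl (Icc (0:ℝ) L)))
      have c3 := cvt.mono (prod_mono hIoo (subset_refl (Icc (0:ℝ) L)))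
      have c4 := cut.mono (prod_mono hIoo (subset_refl (Icc (0:ℝ) L)))
      fun_prop
    · intro s hs x hx
      have hsT : s ∈ Ico 0 T := hsubC (hIoo hs)
      have hn : Ico 0 T ∈ 𝓝 s := Ico_mem_nhds hs.1 hsT.2
      have d1 := ((hv.diff_t x hx) s hsT).hasDerivWithinAt.hasDerivAt hn
      have d2 := ((hu.diff_t x hx) s hsT).hasDerivWithinAt.hasDerivAt hn
      have d3 := ((d1.sub d2).pow 2).const_mul (1 + x)
      refine (d3.congr_deriv ?_).congr_of_eventuallyEq ?_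
      · simp [hvt, hut]; ring
      · exact Eventually.of_forall fun y => by simp
  have hbound : ∀ t ∈ Ioo 0 T',
      (∫ x in (0:ℝ)..L, 2 * (1 + x) * (v t x - u t x) * (vt t x - ut t x)) ≤ K * Y t := by
    intro t ht
    have htT : t ∈ Ico 0 T := hsubC (hIoo ht)
    have hbc : bdry k c L (v t) = bdry k c L (u t) := by rw [hv.bc t htT, hu.bc t htT]
    have h1 := hC (v t) (u t) (hv.diff_x t htT) (hu.diff_x t htT) hbc
    have c3v := c3_of_contDiffOn hL (hv.diff_x t htT)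
    have c3u := c3_of_contDiffOn hL (hu.diff_x t htT)
    have a1 := c3v.cz
    have a2 := c3v.cp
    have a4 := c3v.hr
    have b1 := c3u.cz
    have b2 := c3u.cp
    have b4 := c3u.hr
    set f1 : ℝ → ℝ := fun x => -(2 * (1 + x) * (v t x - u t x) * ((dx L 3 (v t) x - dx L 3 (u t) x)
          + (dx L 1 (v t) x - dx L 1 (u t) x))) with hf1
    set f2 : ℝ → ℝ := fun x => -(2 * (1 + x) * (v t x - u t x) *
      (v t x * (dx L 1 (v t) x - dx L 1 (u t) x) + (v t x - u t x) * dx L 1 (u t) x)) with hf2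
    set g1 : ℝ → ℝ := fun x => -2 * (dx L 1 (v t) x - dx L 1 (u t) x) ^ 2
      + C * (v t x - u t x) ^ 2 with hg1
    set g2 : ℝ → ℝ := fun x => (dx L 1 (v t) x - dx L 1 (u t) x) ^ 2
      + ((1 + L) ^ 2 * M ^ 2 + 2 * (1 + L) * M) * (v t x - u t x) ^ 2 with hg2
    have i1 : IntervalIntegrable f1 volume 0 L := by
      apply ContinuousOn.intervalIntegrable_of_Icc hL.le; fun_prop
    have i2 : IntervalIntegrable f2 volume 0 L := by
      apply ContinuousOn.intervalIntegrable_of_Icc hL.le; fun_prop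
    have j1 : IntervalIntegrable g1 volume 0 L := by
      apply ContinuousOn.intervalIntegrable_of_Icc hL.le; fun_prop
    have j2 : IntervalIntegrable g2 volume 0 L := by
      apply ContinuousOn.intervalIntegrable_of_Icc hL.le; fun_prop
    have h2 : ∫ x in (0:ℝ)..L, f2 x ≤ ∫ x in (0:ℝ)..L, g2 x := by
      apply intervalIntegral.integral_mono_on hL.le i2 j2
      intro x hx
      have m1 : |v t x| ≤ M := by
        have := hM1 (t, x) ⟨hIoo ht, hx⟩
        simp only [Real.norm_eq_abs] at this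
        exact this.trans ((le_max_left _ _).trans (le_max_right _ _))
      have m2 : |dx L 1 (u t) x| ≤ M := by
        have := hM2 (t, x) ⟨hIoo ht, hx⟩
        simp only [Real.norm_eq_abs] at this
        exact this.trans ((le_max_right _ _).trans (le_max_right _ _))
      simp only [hf2, hg2]
      set w := v t x - u t x
      set p := dx L 1 (v t) x - dx L 1 (u t) x
      set V := v t x
      set U := dx L 1 (u t) x
      have hx0 : 0 ≤ 1 + x := by linarith [hx.1]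
      have hxL : 1 + x ≤ 1 + L := by linarith [hx.2]
      have hV : V ^ 2 ≤ M ^ 2 := sq_le_sq' (by linarith [abs_le.1 m1]) (abs_le.1 m1).2
      have e1 : -(2 * (1 + x) * w * (V * p)) ≤ p ^ 2 + (1 + L) ^ 2 * M ^ 2 * w ^ 2 := by
        have : 0 ≤ (p + (1 + x) * w * V) ^ 2 := sq_nonneg _
        have e3 : ((1 + x) * w * V) ^ 2 ≤ (1 + L) ^ 2 * M ^ 2 * w ^ 2 := by
          calc ((1 + x) * w * V) ^ 2 = (1 + x) ^ 2 * V ^ 2 * w ^ 2 := by ring
            _ ≤ (1 + L) ^ 2 * M ^ 2 * w ^ 2 := by gcongr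
        nlinarith
      have e2 : -(2 * (1 + x) * w * (w * U)) ≤ 2 * (1 + L) * M * w ^ 2 := by
        have e4 : -(2 * (1 + x) * w * (w * U)) = 2 * (1 + x) * (-U) * w ^ 2 := by ring
        rw [e4]
        have : -U ≤ M := by linarith [(abs_le.1 m2).1]
        calc 2 * (1 + x) * (-U) * w ^ 2 ≤ 2 * (1 + x) * M * w ^ 2 := by gcongr
          _ ≤ 2 * (1 + L) * M * w ^ 2 := by gcongr
      have e5 : -(2 * (1 + x) * w * (V * p + w * U)) =
        -(2 * (1 + x) * w * (V * p)) + -(2 * (1 + x) * w * (w * U)) := by ring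
      rw [e5]
      calc _ ≤ (p ^ 2 + (1 + L) ^ 2 * M ^ 2 * w ^ 2) + 2 * (1 + L) * M * w ^ 2 := add_le_add e1 e2
        _ = _ := by ring
    have h3 : ∫ x in (0:ℝ)..L, 2 * (1 + x) * (v t x - u t x) * (vt t x - ut t x)
        = ∫ x in (0:ℝ)..L, (f1 x + f2 x) := by
      apply intervalIntegral.integral_congr
      intro x hx
      rw [uIcc_of_le hL.le] at hx
      have e1 := hv.pde t htT x hx
      have e2 := hu.pde t htT x hx
      simp only [hf1, hf2, hvt, hut]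
      have e3 : derivWithin (fun τ => v τ x) (Ico 0 T) t = -(dx L 1 (v t) x + dx L 3 (v t) x
        + v t x * dx L 1 (v t) x) := by linarith
      have e4 : derivWithin (fun τ => u τ x) (Ico 0 T) t = -(dx L 1 (u t) x + dx L 3 (u t) x
        + u t x * dx L 1 (u t) x) := by linarith
      rw [e3, e4]; ring
    rw [h3, intervalIntegral.integral_add i1 i2]
    have h4 : ∫ x in (0:ℝ)..L, (g1 x + g2 x) ≤ ∫ x in (0:ℝ)..L, K * ((1 + x) * (v t x - u t x) ^ 2) := by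
      apply intervalIntegral.integral_mono_on hL.le (j1.add j2)
      · apply ContinuousOn.intervalIntegrable_of_Icc hL.le; fun_prop
      · intro x hx
        simp only [hg1, hg2]
        have e1 : K * (1 * (v t x - u t x) ^ 2) ≤ K * ((1 + x) * (v t x - u t x) ^ 2) := by
          gcongr; linarith [hx.1]
        have e2 := sq_nonneg (dx L 1 (v t) x - dx L 1 (u t) x)
        rw [hK] at e1 ⊢
        nlinarith
    rw [intervalIntegral.integral_add j1 j2, intervalIntegral.integral_const_mul] at h4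
    have h5 : (∫ x in (0:ℝ)..L, f1 x) ≤ ∫ x in (0:ℝ)..L, g1 x := h1
    linarith
  -- Gronwall
  set Z : ℝ → ℝ := fun t => Real.exp (-(K * t)) * Y t with hZ
  have hZa : AntitoneOn Z (Icc 0 T') := by
    apply antitoneOn_of_deriv_nonpos (convex_Icc 0 T')
    · exact (by fun_prop : Continuous fun t => Real.exp (-(K * t))).continuousOn.mul hYc
    · rw [interior_Icc]
      intro t ht
      have d1 : HasDerivAt (fun t => Real.exp (-(K * t))) (Real.exp (-(K * t)) * (-(K * 1))) t :=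
        (((hasDerivAt_id t).const_mul K).neg).exp
      exact (d1.mul (hYd t ht)).differentiableAt.differentiableWithinAt
    · rw [interior_Icc]
      intro t ht
      have d1 : HasDerivAt (fun t => Real.exp (-(K * t))) (Real.exp (-(K * t)) * (-(K * 1))) t :=
        (((hasDerivAt_id t).const_mul K).neg).exp
      have d2 := d1.mul (hYd t ht)
      have : deriv Z t = _ := d2.deriv
      rw [this]
      have h1 := hbound t ht
      have h2 := Real.exp_pos (-(K * t))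
      nlinarith
  have hY0 : Y 0 = 0 := by
    simp only [hY]
    rw [intervalIntegral.integral_congr (g := fun _ => (0:ℝ))]
    · simp
    · intro x hx
      rw [uIcc_of_le hL.le] at hx
      simp [hv.init x hx, hu.init x hx]
  have hYT : Y T' ≤ 0 := by
    have h1 := hZa (left_mem_Icc.2 hT'.1) (right_mem_Icc.2 hT'.1) hT'.1
    simp only [hZ, hY0, mul_zero] at h1
    have h2 := Real.exp_pos (-(K * T'))
    by_contra h3
    push Not at h3
    have := mul_pos h2 h3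
    linarith
  intro x hx
  by_contra hne
  have hcw : ContinuousOn (fun x => (1 + x) * (v T' x - u T' x) ^ 2) (Icc 0 L) := by
    have a1 := (c3_of_contDiffOn hL (hv.diff_x T' hT')).cz
    have b1 := (c3_of_contDiffOn hL (hu.diff_x T' hT')).cz
    fun_prop
  have hpos2 : 0 < ∫ x in (0:ℝ)..L, (1 + x) * (v T' x - u T' x) ^ 2 := by
    apply intervalIntegral.integral_pos hL hcw
    · intro y hy
      have : 0 ≤ 1 + y := by linarith [hy.1]
      positivity
    · refine ⟨x, hx, ?_⟩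
      have h1 : 0 < 1 + x := by linarith [hx.1]
      have h2 : v T' x - u T' x ≠ 0 := sub_ne_zero.2 hne
      positivity
  exact absurd hYT (not_le.2 hpos2)


/-! ### the explicit solution -/

lemma affine_hasDerivAt (A B x₀ x : ℝ) : HasDerivAt (fun x => A - B * (x - x₀)) (-B) x := by
  have := (((hasDerivAt_id x).sub_const x₀).const_mul B).const_sub A
  simpa using this

lemma dx_affine {L : ℝ} (hL : 0 < L) (A B x₀ : ℝ) :
    (∀ x, dx L 0 (fun x => A - B * (x - x₀)) x = A - B * (x - x₀)) ∧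
    (∀ x ∈ Icc 0 L, dx L 1 (fun x => A - B * (x - x₀)) x = -B) ∧
    (∀ x ∈ Icc 0 L, dx L 2 (fun x => A - B * (x - x₀)) x = 0) ∧
    (∀ x ∈ Icc 0 L, dx L 3 (fun x => A - B * (x - x₀)) x = 0) := by
  have hu : UniqueDiffOn ℝ (Icc 0 L) := uniqueDiffOn_Icc hL
  have h1 : ∀ x ∈ Icc 0 L, dx L 1 (fun x => A - B * (x - x₀)) x = -B := by
    intro x hx
    unfold dx
    rw [iteratedDerivWithin_one]
    exact (affine_hasDerivAt A B x₀ x).hasDerivWithinAt.derivWithin (hu x hx)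
  have h2 : ∀ x ∈ Icc 0 L, dx L 2 (fun x => A - B * (x - x₀)) x = 0 := by
    intro x hx
    unfold dx
    rw [iteratedDerivWithin_succ]
    have : derivWithin (iteratedDerivWithin 1 (fun x => A - B * (x - x₀)) (Icc 0 L)) (Icc 0 L) x
        = derivWithin (fun _ => -B) (Icc 0 L) x :=
      derivWithin_congr (fun y hy => h1 y hy) (h1 x hx)
    rw [this]
    simp
  have h3 : ∀ x ∈ Icc 0 L, dx L 3 (fun x => A - B * (x - x₀)) x = 0 := by
    intro x hx
    unfold dx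
    rw [iteratedDerivWithin_succ]
    have : derivWithin (iteratedDerivWithin 2 (fun x => A - B * (x - x₀)) (Icc 0 L)) (Icc 0 L) x
        = derivWithin (fun _ => (0:ℝ)) (Icc 0 L) x :=
      derivWithin_congr (fun y hy => h2 y hy) (h2 x hx)
    rw [this]
    simp
  refine ⟨fun x => ?_, h1, h2, h3⟩
  unfold dx
  rw [iteratedDerivWithin_zero]

/-- for suitable coefficients the boundary operator does not see the slope of an affine function
vanishing at a suitable end point -/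
lemma bdry_affine (k : ℕ) (hk : k = 2 ∨ k = 3 ∨ k = 4) {L : ℝ} (hL : 0 < L) :
    ∃ (c : Coeffs) (x₀ : ℝ) (w : Fin 3 → ℝ), (k = 4 → w = 0) ∧
      ∀ A B, bdry k c L (fun x => A - B * (x - x₀)) = fun j => A * w j := by
  have h0 : (0:ℝ) ∈ Icc 0 L := ⟨le_rfl, hL.le⟩
  have hLL : L ∈ Icc 0 L := ⟨hL.le, le_rfl⟩
  rcases hk with rfl | rfl | rfl
  · refine ⟨⟨0, 0, 0, 0, 0, 0, 0, -1 / L⟩, 0, ![1, -1 / L, 0], by norm_num, ?_⟩
    intro A B
    obtain ⟨-, e1, e2, e3⟩ := dx_affine hL A B 0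
    simp only [sub_zero] at e1 e2
    ext j
    fin_cases j
    · simp [bdry]
    · simp [bdry, e1 L hLL]
      field_simp
      ring
    · simp [bdry, e2 L hLL]
  · refine ⟨⟨0, 0, 0, 0, 1 / L, 0, 0, 0⟩, L, ![0, 1, 1 / L], by norm_num, ?_⟩
    intro A B
    obtain ⟨-, e1, e2, e3⟩ := dx_affine hL A B L
    ext j
    fin_cases j
    · simp [bdry, e2 0 h0]
    · simp [bdry]
    · simp [bdry, e1 L hLL]
      field_simp
      ring
  · refine ⟨⟨0, 0, 0, 0, 1 / L, 0, 0, -1 / L⟩, 0, 0, by norm_num, ?_⟩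
    intro A B
    obtain ⟨-, e1, e2, e3⟩ := dx_affine hL A B 0
    simp only [sub_zero] at e1 e2
    ext j
    fin_cases j
    · simp [bdry, e2 0 h0]
    · simp [bdry, e1 L hLL]
      field_simp
      ring
    · simp [bdry, e2 L hLL]

/-- the explicit solution `-1 - (x - x₀) / (T - t)` -/
noncomputable def sol (T x₀ t x : ℝ) : ℝ := -1 - (T - t)⁻¹ * (x - x₀)

lemma inv_hasDerivAt {T t : ℝ} (ht : t < T) :
    HasDerivAt (fun t => (T - t)⁻¹) ((T - t)⁻¹ ^ 2) t := by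
  have h1 : T - t ≠ 0 := by linarith
  have := ((hasDerivAt_id t).const_sub T).inv h1
  refine this.congr_deriv ?_
  simp only [id]
  field_simp

lemma sol_hasDerivAt_t {T x₀ t x : ℝ} (ht : t < T) :
    HasDerivAt (fun t => sol T x₀ t x) (-((T - t)⁻¹ ^ 2 * (x - x₀))) t := by
  have := ((inv_hasDerivAt ht).mul_const (x - x₀)).const_sub (-1)
  exact this

lemma sol_isSolution (k : ℕ) {c : Coeffs} {x₀ : ℝ} {w : Fin 3 → ℝ} {L T : ℝ} (hL : 0 < L)
    (hw : ∀ A B, bdry k c L (fun x => A - B * (x - x₀)) = fun j => A * w j) :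
    IsSolution k c L T (sol T x₀ 0) (fun j _ => -w j) (sol T x₀) := by
  have hsol : ∀ t, sol T x₀ t = fun x => (-1) - (T - t)⁻¹ * (x - x₀) := fun t => rfl
  have hdt : ∀ t ∈ Ico 0 T, ∀ x, derivWithin (fun τ => sol T x₀ τ x) (Ico 0 T) t
      = -((T - t)⁻¹ ^ 2 * (x - x₀)) := by
    intro t ht x
    exact (sol_hasDerivAt_t ht.2).hasDerivWithinAt.derivWithin (uniqueDiffOn_Ico 0 T t ht)
  have hci : ContinuousOn (fun z : ℝ × ℝ => (T - z.1)⁻¹) (Ico 0 T ×ˢ Icc 0 L) := by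
    apply ContinuousOn.inv₀ (by fun_prop)
    intro z hz
    have : z.1 < T := hz.1.2
    linarith
  refine ⟨?_, ?_, ?_, ?_, ?_, fun x hx => rfl, ?_⟩
  · intro x hx t ht
    exact (sol_hasDerivAt_t ht.2).differentiableAt.differentiableWithinAt
  · intro t ht
    rw [hsol]
    fun_prop
  · refine ContinuousOn.congr (f := fun z : ℝ × ℝ => -((T - z.1)⁻¹ ^ 2 * (z.2 - x₀))) ?_ ?_
    · fun_prop
    · intro z hz
      exact hdt z.1 hz.1 z.2
  · intro j hj
    interval_cases j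
    · refine ContinuousOn.congr (f := fun z : ℝ × ℝ => (-1) - (T - z.1)⁻¹ * (z.2 - x₀)) ?_ ?_
      · fun_prop
      · intro z hz
        exact (dx_affine hL _ _ _).1 z.2
    · refine ContinuousOn.congr (f := fun z : ℝ × ℝ => -(T - z.1)⁻¹) ?_ ?_
      · fun_prop
      · intro z hz
        exact (dx_affine hL _ _ _).2.1 z.2 hz.2
    · refine ContinuousOn.congr (f := fun z : ℝ × ℝ => (0:ℝ)) ?_ ?_
      · fun_prop
      · intro z hz
        exact (dx_affine hL _ _ _).2.2.1 z.2 hz.2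
    · refine ContinuousOn.congr (f := fun z : ℝ × ℝ => (0:ℝ)) ?_ ?_
      · fun_prop
      · intro z hz
        exact (dx_affine hL _ _ _).2.2.2 z.2 hz.2
  · intro t ht x hx
    rw [hdt t ht x, hsol, (dx_affine hL _ _ _).2.1 x hx, (dx_affine hL _ _ _).2.2.2 x hx]
    ring
  · intro t ht
    rw [hsol, hw]
    ext j; ring

lemma sol_smooth (T x₀ : ℝ) : ContDiffOn ℝ ((⊤ : ℕ∞) : WithTop ℕ∞)
    (fun z : ℝ × ℝ => sol T x₀ z.1 z.2) (Iio T ×ˢ univ) := by
  unfold sol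
  have h1 : ContDiffOn ℝ ((⊤ : ℕ∞) : WithTop ℕ∞) (fun z : ℝ × ℝ => (T - z.1)⁻¹) (Iio T ×ˢ univ) := by
    apply ContDiffOn.inv (by fun_prop)
    intro z hz
    have : z.1 < T := hz.1
    linarith
  fun_prop

/-- compatibility conditions of all orders -/
lemma sol_compatible (k : ℕ) {c : Coeffs} {x₀ : ℝ} {w : Fin 3 → ℝ} {L T : ℝ} (hL : 0 < L)
    (hw : ∀ A B, bdry k c L (fun x => A - B * (x - x₀)) = fun j => A * w j) :
    Compatible k c L (sol T x₀ 0) (fun j _ => -w j) := by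
  set a : ℕ → ℝ := fun n => (n.factorial : ℝ) * T⁻¹ ^ (n + 1) with ha
  set b : ℕ → ℝ := fun n => if n = 0 then -1 else 0 with hb
  refine ⟨fun n x => b n - a n * (x - x₀), fun n => by fun_prop, ?_, ?_, ?_⟩
  · intro x hx
    simp [sol, a, b]
  · intro n x hx
    rw [(dx_affine hL _ _ _).2.1 x hx, (dx_affine hL _ _ _).2.2.2 x hx]
    have h1 : ∀ j ∈ Finset.range (n + 1), (n.choose j : ℝ) * (b j - a j * (x - x₀))
        * dx L 1 (fun x => b (n - j) - a (n - j) * (x - x₀)) x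
        = (x - x₀) * ((n.factorial : ℝ) * T⁻¹ ^ (n + 2)) + (if j = 0 then a n else 0) := by
      intro j hj
      rw [(dx_affine hL _ _ _).2.1 x hx]
      have hjn : j ≤ n := Nat.lt_succ_iff.1 (Finset.mem_range.1 hj)
      have hfac : (n.choose j : ℝ) * (j.factorial : ℝ) * ((n - j).factorial : ℝ)
          = (n.factorial : ℝ) := by
        exact_mod_cast Nat.choose_mul_factorial_mul_factorial hjn
      have hprod : (n.choose j : ℝ) * (a j * a (n - j)) = (n.factorial : ℝ) * T⁻¹ ^ (n + 2) := by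
        simp only [ha]
        have hpow : T⁻¹ ^ (n + 2) = T⁻¹ ^ (j + 1) * T⁻¹ ^ (n - j + 1) := by
          rw [← pow_add]; congr 1; omega
        rw [hpow, ← hfac]; ring
      have e : (n.choose j : ℝ) * (b j - a j * (x - x₀)) * (-a (n - j))
          = (x - x₀) * ((n.choose j : ℝ) * (a j * a (n - j))) - (n.choose j : ℝ) * b j * a (n - j) := by
        ring
      rw [e, hprod]
      by_cases hj0 : j = 0
      · subst hj0; simp [b]
      · simp [b, hj0]
    rw [Finset.sum_congr rfl h1, Finset.sum_add_distrib, Finset.sum_const, Finset.card_range,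
      Finset.sum_ite_eq' (Finset.range (n + 1)) 0 (fun _ => a n)]
    have hmem : 0 ∈ Finset.range (n + 1) := Finset.mem_range.2 (Nat.succ_pos n)
    rw [if_pos hmem]
    have hb1 : b (n + 1) = 0 := by simp [b]
    have ha1 : a (n + 1) = (n + 1 : ℝ) * ((n.factorial : ℝ) * T⁻¹ ^ (n + 2)) := by
      simp only [ha]
      rw [Nat.factorial_succ]; push_cast; ring
    show b (n + 1) - a (n + 1) * (x - x₀) = _
    rw [hb1, ha1, nsmul_eq_mul]
    push_cast
    ring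
  · intro n
    rw [hw]
    ext j
    rcases Nat.eq_zero_or_pos n with rfl | hn
    · simp [b]
    · rw [iteratedDeriv_const]
      have : n ≠ 0 := hn.ne'
      simp [b, this]


/-! ### Sobolev class and blow-up -/

lemma sol_inClass (s L T x₀ : ℝ) : InClass s L T (sol T x₀) := by
  intro T' hT'0 hT'
  have hmem : ∀ t ∈ Icc 0 T', 0 < T - t := fun t ht => by linarith [ht.2]
  have hform : ∀ t, sol T x₀ t = fun x => (-1 + (T - t)⁻¹ * x₀) + (-(T - t)⁻¹) * x := by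
    intro t; ext x; simp only [sol]; ring
  have hsum : ∀ t ∈ Icc 0 T', |(-1 + (T - t)⁻¹ * x₀)| + |(-(T - t)⁻¹)|
      ≤ 1 + (T - T')⁻¹ * (|x₀| + 1) := by
    intro t ht
    have h1 : (T - t)⁻¹ ≤ (T - T')⁻¹ := by
      apply inv_anti₀ (by linarith); linarith [ht.2]
    have h0 : 0 < (T - t)⁻¹ := inv_pos.2 (hmem t ht)
    have h2 : |(-1 + (T - t)⁻¹ * x₀)| ≤ 1 + (T - t)⁻¹ * |x₀| := by
      refine (abs_add_le _ _).trans ?_
      rw [abs_mul, abs_of_pos h0]; simp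
    rw [abs_neg, abs_of_pos h0]
    calc |(-1 + (T - t)⁻¹ * x₀)| + (T - t)⁻¹ ≤ (1 + (T - t)⁻¹ * |x₀|) + (T - t)⁻¹ := by linarith
      _ = 1 + (T - t)⁻¹ * (|x₀| + 1) := by ring
      _ ≤ 1 + (T - T')⁻¹ * (|x₀| + 1) := by gcongr
  refine ⟨?_, ?_, ?_⟩
  · intro t ht
    obtain ⟨C, hC, hb⟩ := sobNorm_affine s L
    rw [hform t]
    exact (hb _ _).trans_lt (ENNReal.mul_lt_top hC.lt_top ENNReal.ofReal_lt_top)
  · intro t₀ ht₀
    obtain ⟨C, hC, hb⟩ := sobNorm_affine s L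
    have hle : ∀ t, sobNorm s L (fun x => sol T x₀ t x - sol T x₀ t₀ x) ≤
        C * ENNReal.ofReal (|((T - t)⁻¹ - (T - t₀)⁻¹) * x₀| + |-((T - t)⁻¹ - (T - t₀)⁻¹)|) := by
      intro t
      have e : (fun x => sol T x₀ t x - sol T x₀ t₀ x) =
          fun x => ((T - t)⁻¹ - (T - t₀)⁻¹) * x₀ + (-((T - t)⁻¹ - (T - t₀)⁻¹)) * x := by
        ext x; simp only [sol]; ring
      rw [e]; exact hb _ _
    have hcont : Tendsto (fun t => |((T - t)⁻¹ - (T - t₀)⁻¹) * x₀| + |-((T - t)⁻¹ - (T - t₀)⁻¹)|)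
        (𝓝[Icc 0 T'] t₀) (𝓝 0) := by
      have hc : ContinuousAt (fun t => |((T - t)⁻¹ - (T - t₀)⁻¹) * x₀|
          + |-((T - t)⁻¹ - (T - t₀)⁻¹)|) t₀ := by
        have h1 : ContinuousAt (fun t => (T - t)⁻¹) t₀ :=
          (inv_hasDerivAt (by linarith [hmem t₀ ht₀])).continuousAt
        fun_prop
      have h2 := hc.tendsto.mono_left (nhdsWithin_le_nhds (s := Icc 0 T'))
      simpa using h2
    have h3 : Tendsto (fun t => C * ENNReal.ofReal (|((T - t)⁻¹ - (T - t₀)⁻¹) * x₀|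
        + |-((T - t)⁻¹ - (T - t₀)⁻¹)|)) (𝓝[Icc 0 T'] t₀) (𝓝 0) := by
      have h4 := (ENNReal.continuous_ofReal.tendsto 0).comp hcont
      have h5 := ENNReal.Tendsto.const_mul (a := C) h4 (Or.inr hC)
      simpa using h5
    exact tendsto_of_tendsto_of_tendsto_of_le_of_le tendsto_const_nhds h3
      (fun t => zero_le) hle
  · obtain ⟨C, hC, hb⟩ := sobNorm_affine (s + 1) L
    set B : ℝ≥0∞ := (C * ENNReal.ofReal (1 + (T - T')⁻¹ * (|x₀| + 1))) ^ 2 with hB
    have hBtop : B < ∞ := by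
      rw [hB]
      exact ENNReal.pow_lt_top (ENNReal.mul_lt_top hC.lt_top ENNReal.ofReal_lt_top)
    calc ∫⁻ t in Icc 0 T', (sobNorm (s + 1) L (sol T x₀ t)) ^ 2
        ≤ ∫⁻ t in Icc 0 T', B := by
          apply setLIntegral_mono measurable_const
          intro t ht
          rw [hB, hform t]
          have h6 : ENNReal.ofReal (|(-1 + (T - t)⁻¹ * x₀)| + |(-(T - t)⁻¹)|)
              ≤ ENNReal.ofReal (1 + (T - T')⁻¹ * (|x₀| + 1)) := ENNReal.ofReal_le_ofReal (hsum t ht)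
          gcongr
          exact (hb _ _).trans (mul_le_mul_right h6 C)
      _ = B * volume (Icc 0 T') := by rw [setLIntegral_const]
      _ < ∞ := by
          rw [Real.volume_Icc]
          exact ENNReal.mul_lt_top hBtop ENNReal.ofReal_lt_top

/-- the `L²(0,L)` norm of the explicit solution tends to infinity -/
lemma sol_L2_tendsto {L T x₀ : ℝ} (hL : 0 < L) :
    Tendsto (fun t => ∫ x in (0:ℝ)..L, (sol T x₀ t x) ^ 2) (𝓝[<] T) atTop := by
  set m0 := ∫ x in (0:ℝ)..L, (1:ℝ) with hm0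
  set m1 := ∫ x in (0:ℝ)..L, (x - x₀) with hm1
  set m2 := ∫ x in (0:ℝ)..L, (x - x₀) ^ 2 with hm2
  have hform : ∀ t, ∫ x in (0:ℝ)..L, (sol T x₀ t x) ^ 2
      = (T - t)⁻¹ * ((T - t)⁻¹ * m2 + 2 * m1) + m0 := by
    intro t
    have i0 : IntervalIntegrable (fun x : ℝ => (1:ℝ)) volume 0 L := intervalIntegrable_const
    have i1 : IntervalIntegrable (fun x : ℝ => 2 * (T - t)⁻¹ * (x - x₀)) volume 0 L := by
      apply Continuous.intervalIntegrable; fun_prop
    have i2 : IntervalIntegrable (fun x : ℝ => (T - t)⁻¹ ^ 2 * (x - x₀) ^ 2) volume 0 L := by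
      apply Continuous.intervalIntegrable; fun_prop
    have e : (fun x => (sol T x₀ t x) ^ 2) =
        fun x => (1 + 2 * (T - t)⁻¹ * (x - x₀)) + (T - t)⁻¹ ^ 2 * (x - x₀) ^ 2 := by
      ext x; simp only [sol]; ring
    rw [e, intervalIntegral.integral_add (i0.add i1) i2, intervalIntegral.integral_add i0 i1,
      intervalIntegral.integral_const_mul, intervalIntegral.integral_const_mul]
    ring
  have hm2pos : 0 < m2 := by
    apply intervalIntegral.integral_pos hL (by fun_prop) (fun x _ => sq_nonneg _)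
    by_cases h : x₀ = 0
    · exact ⟨L, ⟨hL.le, le_rfl⟩, by rw [h]; positivity⟩
    · refine ⟨0, ⟨le_rfl, hL.le⟩, ?_⟩
      have : (0 - x₀) ≠ 0 := by simpa using h
      positivity
  have hinv : Tendsto (fun t => (T - t)⁻¹) (𝓝[<] T) atTop := by
    apply Tendsto.inv_tendsto_nhdsGT_zero
    rw [tendsto_nhdsWithin_iff]
    constructor
    · have : Tendsto (fun t => T - t) (𝓝 T) (𝓝 (T - T)) := by
        apply Continuous.tendsto; fun_prop
      rw [sub_self] at this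
      exact this.mono_left nhdsWithin_le_nhds
    · filter_upwards [self_mem_nhdsWithin] with t ht
      have : t < T := ht
      exact sub_pos.2 this
  have h1 : Tendsto (fun t => (T - t)⁻¹ * m2 + 2 * m1) (𝓝[<] T) atTop :=
    tendsto_atTop_add_const_right _ _ (hinv.atTop_mul_const hm2pos)
  have h2 := tendsto_atTop_add_const_right (𝓝[<] T) m0 (hinv.atTop_mul_atTop₀ h1)
  refine h2.congr (fun t => (hform t).symm)

lemma sol_blowsUp {s L T x₀ : ℝ} (hs : 0 ≤ s) (hL : 0 < L) (hT : 0 < T) :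
    BlowsUp s L T (sol T x₀) := by
  refine ⟨sol_inClass s L T x₀, ?_⟩
  intro T₁ hT₁ v hv heq
  obtain ⟨hfin, hcont, -⟩ := hv T hT.le hT₁
  have hTmem : T ∈ Icc 0 T := ⟨hT.le, le_rfl⟩
  set μ : Measure ℝ := volume.restrict (Ioo 0 L) with hμ
  -- the norm stays bounded near `T`
  have h1 : ∀ᶠ t in 𝓝[Icc 0 T] T, sobNorm s L (fun x => v t x - v T x) < 1 :=
    (hcont T hTmem).eventually (gt_mem_nhds (by norm_num))
  have h2 : ∀ᶠ t in 𝓝[<] T, sobNorm s L (fun x => v t x - v T x) < 1 ∧ t ∈ Ico 0 T := by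
    have h3 : ∀ᶠ t in 𝓝[<] T, t ∈ Ico 0 T := by
      filter_upwards [self_mem_nhdsWithin, mem_nhdsWithin_of_mem_nhds (Ioi_mem_nhds hT)] with t ht1 ht2
      exact ⟨le_of_lt ht2, ht1⟩
    have h4 : ∀ᶠ t in 𝓝[<] T, sobNorm s L (fun x => v t x - v T x) < 1 := by
      rw [eventually_nhdsWithin_iff] at h1 ⊢
      filter_upwards [h1, Ioi_mem_nhds hT] with t ht ht0 htT
      exact ht ⟨le_of_lt ht0, le_of_lt htT⟩
    exact h4.and h3
  set B : ℝ≥0∞ := 1 + eLpNorm (v T) 2 μ with hB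
  have hBtop : B ≠ ∞ := by
    apply ENNReal.add_ne_top.2 ⟨by norm_num, ?_⟩
    exact ((eLpNorm_le_sobNorm hs L (v T)).trans_lt (hfin T hTmem)).ne
  have hbd : ∀ᶠ t in 𝓝[<] T, eLpNorm (sol T x₀ t) 2 μ ≤ B := by
    filter_upwards [h2] with t ht
    have m1 : AEStronglyMeasurable (v T) μ := aestronglyMeasurable_of_sobNorm (hfin T hTmem)
    have m2 : AEStronglyMeasurable (v t) μ :=
      aestronglyMeasurable_of_sobNorm (hfin t ⟨ht.2.1, ht.2.2.le⟩)
    have e1 : eLpNorm (sol T x₀ t) 2 μ = eLpNorm (v t) 2 μ :=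
      (eLpNorm_congr_ae (heq t ht.2)).symm
    have e2 : v t = (fun x => v t x - v T x) + v T := by
      ext x; simp
    rw [e1]
    calc eLpNorm (v t) 2 μ = eLpNorm ((fun x => v t x - v T x) + v T) 2 μ := by rw [← e2]
      _ ≤ eLpNorm (fun x => v t x - v T x) 2 μ + eLpNorm (v T) 2 μ :=
          eLpNorm_add_le (m2.sub m1) m1 (by norm_num)
      _ ≤ 1 + eLpNorm (v T) 2 μ := by
          gcongr
          exact (eLpNorm_le_sobNorm hs L _).trans ht.1.le
  -- but it tends to infinity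
  have hL2 : ∀ t, ENNReal.ofReal (∫ x in (0:ℝ)..L, (sol T x₀ t x) ^ 2)
      = eLpNorm (sol T x₀ t) 2 μ ^ 2 := by
    intro t
    have hc : Continuous (fun x => sol T x₀ t x ^ 2) := by unfold sol; fun_prop
    have hint : Integrable (fun x => sol T x₀ t x ^ 2) μ := by
      have : IntegrableOn (fun x => sol T x₀ t x ^ 2) (Icc 0 L) volume :=
        hc.continuousOn.integrableOn_compact isCompact_Icc
      exact this.mono_set Ioo_subset_Icc_self
    rw [eLpNorm_eq_lintegral_rpow_enorm_toReal (by norm_num) (by norm_num)]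
    rw [intervalIntegral.integral_of_le hL.le, integral_Ioc_eq_integral_Ioo,
      ofReal_integral_eq_lintegral_ofReal hint (Eventually.of_forall fun x => sq_nonneg _)]
    simp only [ENNReal.toReal_ofNat]
    rw [← ENNReal.rpow_natCast, ← ENNReal.rpow_mul]
    norm_num
    apply lintegral_congr
    intro x
    rw [← ofReal_norm, ← ENNReal.ofReal_pow (norm_nonneg _), Real.norm_eq_abs, sq_abs]
  have h5 : ∀ᶠ t in 𝓝[<] T, (B ^ 2).toReal + 1 ≤ ∫ x in (0:ℝ)..L, (sol T x₀ t x) ^ 2 :=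
    (sol_L2_tendsto hL).eventually_ge_atTop _
  obtain ⟨t, ht1, ht2⟩ := (hbd.and h5).exists
  have h6 : ENNReal.ofReal ((B ^ 2).toReal + 1) ≤ B ^ 2 := by
    calc ENNReal.ofReal ((B ^ 2).toReal + 1)
        ≤ ENNReal.ofReal (∫ x in (0:ℝ)..L, (sol T x₀ t x) ^ 2) := ENNReal.ofReal_le_ofReal ht2
      _ = eLpNorm (sol T x₀ t) 2 μ ^ 2 := hL2 t
      _ ≤ B ^ 2 := by gcongr
  have h7 : B ^ 2 ≠ ∞ := ENNReal.pow_ne_top hBtop
  have h8 := ENNReal.toReal_mono h7 h6
  rw [ENNReal.toReal_ofReal (by positivity)] at h8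
  linarith

/-- no classical solution with the same data exists beyond `T` -/
lemma no_extension {k : ℕ} {c : Coeffs} {L T x₀ : ℝ} (hL : 0 < L) (hT : 0 < T)
    {φ : ℝ → ℝ} {h : Fin 3 → ℝ → ℝ} (hs : IsSolution k c L T φ h (sol T x₀))
    {T₁ : ℝ} {v : ℝ → ℝ → ℝ} (hv : IsSolution k c L T₁ φ h v) : T₁ ≤ T := by
  by_contra hlt
  push Not at hlt
  have huniq := unique hL hs (hv.mono hlt.le)
  -- a point where the explicit solution is unbounded
  obtain ⟨y, hy, hyne⟩ : ∃ y ∈ Icc 0 L, y - x₀ ≠ 0 := by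
    by_cases h0 : x₀ = 0
    · exact ⟨L, ⟨hL.le, le_rfl⟩, by rw [h0]; simpa using hL.ne'⟩
    · exact ⟨0, ⟨le_rfl, hL.le⟩, by simpa using h0⟩
  have hTmem : T ∈ Ico 0 T₁ := ⟨hT.le, hlt⟩
  have hcont : ContinuousWithinAt (fun t => v t y) (Ico 0 T₁) T :=
    (hv.diff_t y hy T hTmem).continuousWithinAt
  have h1 : Tendsto (fun t => v t y) (𝓝[<] T) (𝓝 (v T y)) := by
    apply hcont.tendsto.mono_left
    rw [nhdsWithin_le_iff]
    filter_upwards [self_mem_nhdsWithin, mem_nhdsWithin_of_mem_nhds (Ioi_mem_nhds hT)] with t ht1 ht2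
    exact ⟨le_of_lt ht2, lt_trans ht1 hlt⟩
  have h2 : Tendsto (fun t => sol T x₀ t y) (𝓝[<] T) (𝓝 (v T y)) := by
    refine h1.congr' ?_
    filter_upwards [self_mem_nhdsWithin, mem_nhdsWithin_of_mem_nhds (Ioi_mem_nhds hT)] with t ht1 ht2
    exact huniq t ⟨le_of_lt ht2, ht1⟩ y hy
  have h3 : Tendsto (fun t => (T - t)⁻¹) (𝓝[<] T) (𝓝 ((-1 - v T y) / (y - x₀))) := by
    have h4 := (h2.const_sub (-1)).div_const (y - x₀)
    refine h4.congr ?_
    intro t
    simp only [sol]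
    field_simp
    ring
  have hinv : Tendsto (fun t => (T - t)⁻¹) (𝓝[<] T) atTop := by
    apply Tendsto.inv_tendsto_nhdsGT_zero
    rw [tendsto_nhdsWithin_iff]
    constructor
    · have : Tendsto (fun t => T - t) (𝓝 T) (𝓝 (T - T)) := by
        apply Continuous.tendsto; fun_prop
      rw [sub_self] at this
      exact this.mono_left nhdsWithin_le_nhds
    · filter_upwards [self_mem_nhdsWithin] with t ht
      have : t < T := ht
      exact sub_pos.2 this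
  exact not_tendsto_nhds_of_tendsto_atTop hinv _ h3

/-- **Finite-time blow-up for `(∗_k)`, `k = 2,3,4`, every length `L` and every blow-up time `T`.**
There are coefficients, an initial value `φ` and time-independent boundary data `h` (with `h = 0`
when `k = 4`), compatible to every order, for which `(∗_k)` has a smooth solution `u` on `[0,T)`
that blows up at time `T` in `H^s(0,L)` for every `s ≥ 0`: `u` lies in
`C([0,T'];H^s) ∩ L²(0,T';H^{s+1})` for all `T' < T`, cannot be continued past `T` in this class,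
and its `L²` norm tends to infinity. Moreover `u` is the only classical solution with these data and
no classical solution exists on a longer time interval. -/
theorem result (k : ℕ) (hk : k = 2 ∨ k = 3 ∨ k = 4) (L T : ℝ) (hL : 0 < L) (hT : 0 < T) :
    ∃ (c : Coeffs) (φ : ℝ → ℝ) (h : Fin 3 → ℝ) (u : ℝ → ℝ → ℝ),
      (k = 4 → h = 0) ∧
      (∀ s, 0 ≤ s → sobNorm s L φ < ∞) ∧
      Compatible k c L φ (fun j _ => h j) ∧
      IsSolution k c L T φ (fun j _ => h j) u ∧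
      ContDiffOn ℝ ((⊤ : ℕ∞) : WithTop ℕ∞) (fun z : ℝ × ℝ => u z.1 z.2) (Iio T ×ˢ univ) ∧
      (∀ s, 0 ≤ s → BlowsUp s L T u) ∧
      Tendsto (fun t => ∫ x in (0:ℝ)..L, (u t x) ^ 2) (𝓝[<] T) atTop ∧
      (∀ (T₁ : ℝ) (v : ℝ → ℝ → ℝ), IsSolution k c L T₁ φ (fun j _ => h j) v →
        T₁ ≤ T ∧ ∀ t ∈ Ico 0 T₁, ∀ x ∈ Icc 0 L, v t x = u t x) := by
  obtain ⟨c, x₀, w, hw0, hw⟩ := bdry_affine k hk hL
  have hsol := sol_isSolution k (T := T) hL hw
  refine ⟨c, sol T x₀ 0, fun j => -w j, sol T x₀, ?_, ?_, sol_compatible k hL hw, hsol,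
    sol_smooth T x₀, fun s hs => sol_blowsUp hs hL hT, sol_L2_tendsto hL, ?_⟩
  · intro h4
    ext j
    simp [hw0 h4]
  · intro s _
    exact (sol_inClass s L T x₀ 0 le_rfl hT).1 0 ⟨le_rfl, le_rfl⟩
  · intro T₁ v hv
    have hle := no_extension hL hT hsol hv
    exact ⟨hle, unique hL (hsol.mono hle) hv⟩

end Pool.Agent.Results.MP_0e2b0d_an.KdVBlowup
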